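import Mathlib

/-!
# Growth functions of semigroups: definitions
-/

namespace Pool.Agent.H112Z.Growth

universe u

/-- The elements of `S` which are products `a * x₁ * ⋯ * x_k` of at least one and at most `n`
elements of `Y`. -/
def ball {S : Type u} [Semigroup S] (Y : Finset S) (n : ℕ) : Set S :=
  {s | ∃ (a : S) (l : List S), a ∈ Y ∧ (∀ x ∈ l, x ∈ Y) ∧ l.length + 1 ≤ n ∧
    l.foldl (· * ·) a = s}

/-- The growth function of `S` with respect to the finite set `Y`. -/
noncomputable def growth {S : Type u} [Semigroup S] (Y : Finset S) (n : ℕ) : ℕ :=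
  (ball Y n).ncard

/-- `Y` generates the semigroup `S`. -/
def Generates {S : Type u} [Semigroup S] (Y : Finset S) : Prop :=
  ∀ s : S, ∃ n, s ∈ ball Y n

/-- `S` is finitely presented: it is the quotient of a free semigroup of finite rank by the
congruence generated by finitely many pairs of words. -/
def FinPres (S : Type u) [Semigroup S] : Prop :=
  ∃ (k : ℕ) (R : Finset (FreeSemigroup (Fin k) × FreeSemigroup (Fin k)))
    (φ : FreeSemigroup (Fin k) →ₙ* S), Function.Surjective φ ∧
      ∀ u v, φ u = φ v ↔ conGen (fun a b => (a, b) ∈ R) u v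

/-- `f ⪯ g`. -/
def Dom (f g : ℕ → ℕ) : Prop := ∃ C : ℕ, 1 ≤ C ∧ ∀ n, f n ≤ C * g (C * n)

/-- `f ∼ g`. -/
def Eqv (f g : ℕ → ℕ) : Prop := Dom f g ∧ Dom g f

end Pool.Agent.H112Z.Growth
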