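import Pool.Agent.H112Z.GrowthDefs

/-!
# Countably many growth functions, and a diagonal argument
-/

namespace Pool.Agent.H112Z.Growth

open Filter Topology

universe u v

section Ball

variable {S : Type u} [Semigroup S]

theorem foldl_mul (x b : S) (l : List S) : l.foldl (· * ·) (x * b) = x * l.foldl (· * ·) b := by
  induction l generalizing b with
  | nil => rfl
  | cons c l ih => simp only [List.foldl_cons]; rw [mul_assoc, ih]

theorem ball_finite (Y : Finset S) (n : ℕ) : (ball Y n).Finite := by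
  classical
  have h1 : {l : List Y | l.length ≤ n}.Finite := List.finite_length_le Y n
  have h2 := ((Set.finite_univ (α := Y)).prod h1).image
    (fun p : Y × List Y => (p.2.map Subtype.val).foldl (· * ·) (p.1 : S))
  refine h2.subset ?_
  rintro s ⟨a, l, ha, hl, hn, rfl⟩
  refine ⟨(⟨a, ha⟩, l.pmap Subtype.mk hl), ⟨trivial, ?_⟩, ?_⟩
  · simp only [Set.mem_ofPred_eq, List.length_pmap]; omega
  · simp [List.map_pmap]

theorem ball_add (Y : Finset S) (n m : ℕ) :
    ball Y (n + m) ⊆ ball Y n ∪ ball Y m ∪ Set.image2 (· * ·) (ball Y n) (ball Y m) := by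
  rintro s ⟨a, l, ha, hl, hn, rfl⟩
  by_cases h1 : l.length + 1 ≤ n
  · exact Or.inl (Or.inl ⟨a, l, ha, hl, h1, rfl⟩)
  by_cases h0 : n = 0
  · exact Or.inl (Or.inr ⟨a, l, ha, hl, by omega, rfl⟩)
  right
  obtain ⟨k, rfl⟩ : ∃ k, n = k + 1 := ⟨n - 1, by omega⟩
  have hk : k < l.length := by omega
  have hsplit : l = l.take k ++ l[k] :: l.drop (k + 1) := by
    rw [← List.drop_eq_getElem_cons hk, List.take_append_drop]
  refine ⟨(l.take k).foldl (· * ·) a, ⟨a, l.take k, ha, fun x hx => hl x (List.mem_of_mem_take hx),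
    by simp only [List.length_take]; omega, rfl⟩,
    (l.drop (k + 1)).foldl (· * ·) l[k], ⟨l[k], l.drop (k + 1), hl _ (List.getElem_mem hk),
    fun x hx => hl x (List.mem_of_mem_drop hx), by simp only [List.length_drop]; omega, rfl⟩, ?_⟩
  conv_rhs => rw [hsplit]
  rw [List.foldl_append, List.foldl_cons, foldl_mul]

theorem growth_add (Y : Finset S) (n m : ℕ) :
    growth Y (n + m) + 1 ≤ (growth Y n + 1) * (growth Y m + 1) := by
  have f1 := ball_finite Y n
  have f2 := ball_finite Y m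
  have h1 : growth Y (n + m) ≤ (ball Y n ∪ ball Y m ∪
      Set.image2 (· * ·) (ball Y n) (ball Y m)).ncard :=
    Set.ncard_le_ncard (ball_add Y n m) ((f1.union f2).union (f1.image2 _ f2))
  have h2 := Set.ncard_union_le (ball Y n ∪ ball Y m) (Set.image2 (· * ·) (ball Y n) (ball Y m))
  have h3 := Set.ncard_union_le (ball Y n) (ball Y m)
  have h4 : (Set.image2 (· * ·) (ball Y n) (ball Y m)).ncard ≤
      (ball Y n).ncard * (ball Y m).ncard := by
    rw [← Set.image_prod, ← Set.ncard_prod]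
    exact Set.ncard_image_le (f1.prod f2)
  unfold growth at *
  nlinarith

theorem growth_transfer {Q : Type v} [Semigroup Q] (ι : Q → S) (hι : Function.Bijective ι)
    (hm : ∀ x y, ι (x * y) = ι x * ι y) (Y : Finset S) :
    ∃ Z : Finset Q, growth Z = growth Y := by
  classical
  have hf : ∀ (l : List Q) (a : Q), ι (l.foldl (· * ·) a) = (l.map ι).foldl (· * ·) (ι a) := by
    intro l
    induction l with
    | nil => intro a; rfl
    | cons c l ih => intro a; simp only [List.foldl_cons, List.map_cons]; rw [ih, hm]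
  obtain ⟨σ, hσ⟩ := hι.2.hasRightInverse
  refine ⟨Y.image σ, funext fun n => ?_⟩
  have : ball Y n = ι '' ball (Y.image σ) n := by
    ext s
    constructor
    · rintro ⟨a, l, ha, hl, hn, rfl⟩
      refine ⟨(l.map σ).foldl (· * ·) (σ a), ⟨σ a, l.map σ, Finset.mem_image_of_mem _ ha, ?_,
        by simpa using hn, rfl⟩, ?_⟩
      · intro x hx
        obtain ⟨y, hy, rfl⟩ := List.mem_map.mp hx
        exact Finset.mem_image_of_mem _ (hl y hy)
      · rw [hf, hσ a, List.map_map]
        have : ι ∘ σ = id := funext hσ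
        rw [this, List.map_id]
    · rintro ⟨q, ⟨a, l, ha, hl, hn, rfl⟩, rfl⟩
      have key : ∀ x ∈ Y.image σ, ι x ∈ Y := by
        intro x hx
        obtain ⟨y, hy, rfl⟩ := Finset.mem_image.mp hx
        rw [hσ y]; exact hy
      refine ⟨ι a, l.map ι, key a ha, ?_, by simpa using hn, (hf l a).symm⟩
      intro x hx
      obtain ⟨y, hy, rfl⟩ := List.mem_map.mp hx
      exact key y (hl y hy)
  unfold growth
  rw [this, Set.ncard_image_of_injective _ hι.1]

end Ball

/-! ### Countably many growth functions -/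

instance countable_free (k : ℕ) : Countable (FreeSemigroup (Fin k)) := by
  have : Function.Injective (fun w : FreeSemigroup (Fin k) => (w.head, w.tail)) := by
    rintro ⟨a, l⟩ ⟨b, m⟩ h
    simp only [Prod.mk.injEq] at h
    rw [h.1, h.2]
  exact this.countable

abbrev Pres (k : ℕ) (R : Finset (FreeSemigroup (Fin k) × FreeSemigroup (Fin k))) : Type :=
  (conGen (fun a b => (a, b) ∈ R)).Quotient

instance countable_pres (k : ℕ) (R : Finset (FreeSemigroup (Fin k) × FreeSemigroup (Fin k))) :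
    Countable (Pres k R) :=
  inferInstanceAs (Countable (Quotient _))

abbrev Code : Type :=
  Σ (k : ℕ) (R : Finset (FreeSemigroup (Fin k) × FreeSemigroup (Fin k))), Finset (Pres k R)

noncomputable def codeGrowth (c : Code) : ℕ → ℕ := growth c.2.2

theorem exists_code {S : Type u} [Semigroup S] (h : FinPres S) (Y : Finset S) :
    ∃ c : Code, codeGrowth c = growth Y := by
  obtain ⟨k, R, φ, hs, hk⟩ := h
  let ι : Pres k R → S := Quotient.lift φ (fun a b hab => (hk a b).mpr hab)
  have hb : Function.Bijective ι := by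
    constructor
    · intro x y
      induction x using Quotient.inductionOn with
      | _ a =>
        induction y using Quotient.inductionOn with
        | _ b => intro hab; exact Quotient.sound ((hk a b).mp hab)
    · intro s
      obtain ⟨w, rfl⟩ := hs s
      exact ⟨Quotient.mk _ w, rfl⟩
  have hm : ∀ x y, ι (x * y) = ι x * ι y := by
    intro x y
    induction x using Quotient.inductionOn with
    | _ a =>
      induction y using Quotient.inductionOn with
      | _ b => exact φ.map_mul' a b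
  obtain ⟨Z, hZ⟩ := growth_transfer ι hb hm Y
  exact ⟨⟨k, R, Z⟩, hZ⟩

/-! ### Subexponential functions -/

def SubExp (g : ℕ → ℕ) : Prop := ∀ c : ℝ, 1 < c → ∀ᶠ n in atTop, (g n : ℝ) ≤ c ^ n

theorem SubExp.bound {g : ℕ → ℕ} (h : SubExp g) (c : ℝ) (hc : 1 < c) :
    ∃ K : ℝ, 1 ≤ K ∧ ∀ n, (g n : ℝ) ≤ K * c ^ n := by
  obtain ⟨N, hN⟩ := eventually_atTop.mp (h c hc)
  have h0 : (0 : ℝ) ≤ ∑ i ∈ Finset.range N, (g i : ℝ) :=
    Finset.sum_nonneg (fun _ _ => by positivity)
  refine ⟨1 + ∑ i ∈ Finset.range N, (g i : ℝ), by linarith, fun n => ?_⟩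
  have h1 : (1 : ℝ) ≤ c ^ n := one_le_pow₀ hc.le
  by_cases hn : N ≤ n
  · have := hN n hn
    nlinarith
  · have : (g n : ℝ) ≤ ∑ i ∈ Finset.range N, (g i : ℝ) :=
      Finset.single_le_sum (f := fun i => (g i : ℝ)) (fun _ _ => by positivity)
        (Finset.mem_range.mpr (by omega))
    nlinarith

theorem subExp_of_bound {g : ℕ → ℕ}
    (h : ∀ c : ℝ, 1 < c → ∃ K : ℝ, ∀ n, (g n : ℝ) ≤ K * c ^ n) : SubExp g := by
  intro c hc
  obtain ⟨K, hK⟩ := h ((1 + c) / 2) (by linarith)
  have hd : (0 : ℝ) < (1 + c) / 2 := by linarith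
  have h1 : 1 < c / ((1 + c) / 2) := by rw [one_lt_div hd]; linarith
  have h2 := (tendsto_pow_atTop_atTop_of_one_lt h1).eventually_ge_atTop K
  filter_upwards [h2] with n hn
  rw [div_pow, le_div_iff₀ (by positivity)] at hn
  exact (hK n).trans hn

theorem subExp_cube : SubExp (fun n => n ^ 3 + 1) := by
  apply subExp_of_bound
  intro c hc
  have h1 := tendsto_pow_const_div_const_pow_of_one_lt 3 hc
  obtain ⟨K, hK⟩ := h1.bddAbove_range
  refine ⟨K + 1, fun n => ?_⟩
  have h2 : (n : ℝ) ^ 3 / c ^ n ≤ K := hK ⟨n, rfl⟩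
  have h3 : (1 : ℝ) ≤ c ^ n := one_le_pow₀ hc.le
  rw [div_le_iff₀ (by positivity)] at h2
  push_cast
  nlinarith

theorem SubExp.add {f g : ℕ → ℕ} (hf : SubExp f) (hg : SubExp g) : SubExp (fun n => f n + g n) := by
  apply subExp_of_bound
  intro c hc
  obtain ⟨K, -, hK⟩ := hf.bound c hc
  obtain ⟨K', -, hK'⟩ := hg.bound c hc
  refine ⟨K + K', fun n => ?_⟩
  have := hK n
  have := hK' n
  push_cast
  nlinarith

theorem SubExp.sum {f : ℕ → ℕ} (hf : SubExp f) :
    SubExp (fun n => ∑ i ∈ Finset.range (n + 1), f i) := by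
  apply subExp_of_bound
  intro c hc
  obtain ⟨K, hK1, hK⟩ := hf.bound c hc
  refine ⟨K * c / (c - 1), fun n => ?_⟩
  have hc1 : 0 < c - 1 := by linarith
  induction n with
  | zero =>
    have := hK 0
    simp only [zero_add, Finset.range_one, Finset.sum_singleton, pow_zero, mul_one] at this ⊢
    refine this.trans ?_
    rw [le_div_iff₀ hc1]; nlinarith
  | succ n ih =>
    rw [Finset.sum_range_succ]
    push_cast at ih ⊢
    have h1 := hK (n + 1)
    have h2 : K * c / (c - 1) * c ^ (n + 1) = K * c / (c - 1) * c ^ n + K * c ^ (n + 1) := by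
      field_simp; ring
    rw [h2]; linarith

theorem diag (g : ℕ → ℕ → ℕ) (hg : ∀ i, SubExp (g i)) :
    ∃ F : ℕ → ℕ, SubExp F ∧ ∀ i, ∀ᶠ n in atTop, g i n ≤ F n := by
  have h1 : ∀ i : ℕ, ∃ M : ℕ, ∀ n ≥ M, (g i n : ℝ) ≤ (1 + 1 / ((i : ℝ) + 1)) ^ n := fun i =>
    eventually_atTop.mp (hg i _ (by
      have : (0 : ℝ) < 1 / ((i : ℝ) + 1) := by positivity
      linarith))
  choose M hM using h1
  refine ⟨fun n => ((Finset.range (n + 1)).filter (fun i => M i ≤ n)).sup (fun i => g i n),
    ?_, ?_⟩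
  · intro c hc
    obtain ⟨j, hj⟩ := exists_nat_one_div_lt (show 0 < c - 1 by linarith)
    have h2 : ∀ᶠ n in atTop, ∀ i ∈ Finset.range j, (g i n : ℝ) ≤ c ^ n :=
      (Finset.eventually_all _).mpr (fun i _ => hg i c hc)
    filter_upwards [h2] with n hn
    rcases (((Finset.range (n + 1)).filter (fun i => M i ≤ n))).eq_empty_or_nonempty with h | h
    · rw [h]; simp only [Finset.sup_empty, bot_eq_zero', CharP.cast_eq_zero]; positivity
    · obtain ⟨i, hi, he⟩ := Finset.exists_mem_eq_sup _ h (fun i => g i n)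
      rw [he]
      by_cases hij : i < j
      · exact hn i (Finset.mem_range.mpr hij)
      · refine (hM i n (Finset.mem_filter.mp hi).2).trans ?_
        apply pow_le_pow_left₀ (by positivity)
        have h3 : (1 : ℝ) / ((i : ℝ) + 1) ≤ 1 / ((j : ℝ) + 1) := by
          apply one_div_le_one_div_of_le (by positivity)
          have : (j : ℝ) ≤ i := by exact_mod_cast (not_lt.mp hij)
          linarith
        linarith
  · intro i
    filter_upwards [eventually_ge_atTop (M i), eventually_ge_atTop i] with n h2 h3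
    exact Finset.le_sup (f := fun i => g i n)
      (Finset.mem_filter.mpr ⟨Finset.mem_range.mpr (by omega), h2⟩)

/-- Fekete's lemma: a growth function is subexponential or eventually at least `n ^ 3`. -/
theorem dichotomy (g : ℕ → ℕ) (h : ∀ n m, g (n + m) + 1 ≤ (g n + 1) * (g m + 1)) :
    SubExp g ∨ ∀ᶠ n in atTop, n ^ 3 ≤ g n := by
  let a : ℕ → ℝ := fun n => Real.log ((g n : ℝ) + 1)
  have hsub : Subadditive a := by
    intro n m
    have h1 : ((g (n + m) : ℝ) + 1) ≤ ((g n : ℝ) + 1) * ((g m : ℝ) + 1) := by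
      exact_mod_cast h n m
    simp only [a]
    rw [← Real.log_mul (by positivity) (by positivity)]
    exact Real.log_le_log (by positivity) h1
  have hbdd : BddBelow (Set.range fun n : ℕ => a n / n) := by
    refine ⟨0, ?_⟩
    rintro _ ⟨n, rfl⟩
    apply div_nonneg _ (by positivity)
    apply Real.log_nonneg
    have : (0 : ℝ) ≤ g n := by positivity
    linarith
  by_cases hl : hsub.lim ≤ 0
  · left
    intro c hc
    have h1 := (hsub.tendsto_lim hbdd).eventually_lt_const
      (show hsub.lim < Real.log c from lt_of_le_of_lt hl (Real.log_pos hc))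
    filter_upwards [h1, eventually_gt_atTop 0] with n hn hn0
    rw [div_lt_iff₀ (by exact_mod_cast hn0)] at hn
    have h2 : Real.log ((g n : ℝ) + 1) < Real.log (c ^ n) := by
      rw [Real.log_pow]; simp only [a] at hn; linarith
    have h3 := (Real.log_lt_log_iff (by positivity) (by positivity)).mp h2
    linarith
  · right
    push Not at hl
    have hc : 1 < Real.exp hsub.lim := Real.one_lt_exp_iff.mpr hl
    filter_upwards [subExp_cube _ hc, eventually_gt_atTop 0] with n hn hn0
    have h1 := hsub.lim_le_div hbdd (n := n) (by omega)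
    rw [le_div_iff₀ (by exact_mod_cast hn0)] at h1
    have h2 : Real.exp hsub.lim ^ n ≤ (g n : ℝ) + 1 := by
      rw [← Real.exp_nat_mul, ← Real.le_log_iff_exp_le (by positivity)]
      simp only [a] at h1; linarith
    have h3 : ((n ^ 3 + 1 : ℕ) : ℝ) ≤ ((g n + 1 : ℕ) : ℝ) := by
      refine hn.trans ?_
      push_cast; exact h2
    have h4 : n ^ 3 + 1 ≤ g n + 1 := by exact_mod_cast h3
    omega

theorem SubExp.dom {f : ℕ → ℕ} (hf : SubExp f) : Dom f (fun n => 2 ^ n) := by
  obtain ⟨K, hK1, hK⟩ := hf.bound 2 (by norm_num)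
  obtain ⟨C, hC⟩ := exists_nat_ge K
  have hC1 : 1 ≤ C := by exact_mod_cast hK1.trans hC
  refine ⟨C, hC1, fun n => ?_⟩
  have h1 : (f n : ℝ) ≤ C * 2 ^ n := (hK n).trans (by gcongr)
  have h2 : f n ≤ C * 2 ^ n := by exact_mod_cast h1
  refine h2.trans (Nat.mul_le_mul_left _ (Nat.pow_le_pow_right (by norm_num) ?_))
  exact Nat.le_mul_of_pos_left _ hC1

theorem SubExp.not_dom {f : ℕ → ℕ} (hf : SubExp f) : ¬ Dom (fun n => 2 ^ n) f := by
  rintro ⟨C, hC1, hC⟩
  have h1 : ∀ᶠ x : ℝ in 𝓝 1, x ^ C < 2 :=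
    (continuous_pow C).continuousAt.eventually_lt continuousAt_const (by simp)
  obtain ⟨c, hc1, hc2⟩ := h1.exists_gt
  obtain ⟨K, hK1, hK⟩ := hf.bound c hc1
  have hcp : (0 : ℝ) < c ^ C := by positivity
  have h2 : 1 < 2 / c ^ C := by rw [one_lt_div hcp]; exact hc2
  obtain ⟨n, hn⟩ := ((tendsto_pow_atTop_atTop_of_one_lt h2).eventually_gt_atTop (C * K)).exists
  rw [div_pow, lt_div_iff₀ (by positivity)] at hn
  have h3 : ((2 : ℝ)) ^ n ≤ C * (f (C * n) : ℝ) := by exact_mod_cast hC n
  have h4 := hK (C * n)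
  rw [pow_mul] at h4
  have h5 : (C : ℝ) * (f (C * n) : ℝ) ≤ C * (K * (c ^ C) ^ n) := by gcongr
  nlinarith

theorem main : ∃ f₁ f₂ : ℕ → ℕ, StrictMono f₁ ∧ StrictMono f₂ ∧
    Dom (fun n => n ^ 2) f₁ ∧ Dom f₂ (fun n => 2 ^ n) ∧
    ¬ Eqv f₁ (fun n => n ^ 2) ∧ ¬ Eqv f₂ (fun n => 2 ^ n) ∧ (∀ n, f₁ n ≤ f₂ n) ∧
    ∀ (S : Type u) [Semigroup S], FinPres S → ∀ Y : Finset S, Generates Y →
      (∀ᶠ n in atTop, f₁ n ≤ growth Y n) ∨ (∀ᶠ n in atTop, growth Y n ≤ f₂ n) := by
  classical
  have hne : Nonempty Code := ⟨⟨0, ∅, ∅⟩⟩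
  obtain ⟨en, hen⟩ := exists_surjective_nat Code
  let g : ℕ → ℕ → ℕ := fun i => if SubExp (codeGrowth (en i)) then codeGrowth (en i) else 0
  have hg : ∀ i, SubExp (g i) := by
    intro i
    simp only [g]
    split_ifs with h
    · exact h
    · intro c hc
      exact Eventually.of_forall (fun n => by simp only [Pi.zero_apply, Nat.cast_zero]; positivity)
  obtain ⟨F, hF1, hF2⟩ := diag g hg
  let f₂ : ℕ → ℕ := fun n => ∑ i ∈ Finset.range (n + 1), (F i + (i ^ 3 + 1))
  have hf₂ : SubExp f₂ := (hF1.add subExp_cube).sum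
  have hge : ∀ n, F n + (n ^ 3 + 1) ≤ f₂ n := fun n =>
    Finset.single_le_sum (f := fun i => F i + (i ^ 3 + 1)) (fun _ _ => Nat.zero_le _)
      (Finset.mem_range.mpr (Nat.lt_succ_self n))
  refine ⟨fun n => n ^ 3, f₂, fun a b h => Nat.pow_lt_pow_left h (by norm_num), ?_, ?_,
    hf₂.dom, ?_, fun h => hf₂.not_dom h.2, fun n => by have := hge n; change n ^ 3 ≤ f₂ n; omega, ?_⟩
  · apply strictMono_nat_of_lt_succ
    intro n
    simp only [f₂]
    rw [Finset.sum_range_succ _ (n + 1)]
    omega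
  · refine ⟨1, le_rfl, fun n => ?_⟩
    simp only [one_mul]
    rcases Nat.eq_zero_or_pos n with rfl | h
    · simp
    · exact Nat.pow_le_pow_right h (by norm_num)
  · rintro ⟨⟨C, hC1, hC⟩, -⟩
    have h1 := hC (C ^ 3 + 1)
    simp only at h1
    have h2 : C * (C * (C ^ 3 + 1)) ^ 2 = C ^ 3 * (C ^ 3 + 1) ^ 2 := by ring
    have h3 : (C ^ 3 + 1) ^ 3 = (C ^ 3 + 1) * (C ^ 3 + 1) ^ 2 := by ring
    rw [h2, h3] at h1
    have h4 := Nat.le_of_mul_le_mul_right h1 (by positivity)
    omega
  · intro S _ hS Y _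
    rcases dichotomy (growth Y) (growth_add Y) with h | h
    · right
      obtain ⟨c, hc⟩ := exists_code hS Y
      obtain ⟨i, rfl⟩ := hen c
      have h1 : g i = growth Y := by
        simp only [g]
        rw [hc, if_pos h]
      filter_upwards [hF2 i] with n hn
      rw [h1] at hn
      have := hge n
      omega
    · exact Or.inl h

end Pool.Agent.H112Z.Growth
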