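import Mathlib

/-!
# Local dimension and width of finite posets: definitions
-/

namespace Pool.Agent.H112Z.Ldim

/-- A partial linear extension of the poset `P`: a subset `dom` of the ground set and a strict
linear order `lt` on `dom` which extends the order induced by `P` on `dom`. -/
structure PLE (P : Type) [PartialOrder P] where
  /-- the subset `X_L` on which the linear order lives -/
  dom : Set P
  /-- `lt x y` means that `x < y` in `L` -/
  lt : P → P → Prop
  mem_of_lt : ∀ x y, lt x y → x ∈ dom ∧ y ∈ dom
  irrefl : ∀ x, ¬ lt x x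
  trans : ∀ x y z, lt x y → lt y z → lt x z
  total : ∀ x ∈ dom, ∀ y ∈ dom, x ≠ y → lt x y ∨ lt y x
  extends_lt : ∀ x ∈ dom, ∀ y ∈ dom, x < y → lt x y

/-- A local realizer: every relation `x < y` of `P` holds in some member, and for every ordered
pair `(x, y)` of incomparable elements some member has `y < x`. -/
def IsLocalRealizer {P : Type} [PartialOrder P] (𝓛 : Set (PLE P)) : Prop :=
  (∀ x y : P, x < y → ∃ L ∈ 𝓛, L.lt x y) ∧
  (∀ x y : P, ¬ x ≤ y → ¬ y ≤ x → ∃ L ∈ 𝓛, L.lt y x)

/-- The local dimension: the least `t` such that some local realizer uses each element in at most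
`t` of its members. -/
noncomputable def ldim (P : Type) [PartialOrder P] : ℕ :=
  sInf {t : ℕ | ∃ 𝓛 : Set (PLE P), IsLocalRealizer 𝓛 ∧
    ∀ x : P, {L ∈ 𝓛 | x ∈ L.dom}.encard ≤ t}

/-- `P` has width `w`: `w` is the largest size of an antichain of `P`. -/
def HasWidth (P : Type) [PartialOrder P] (w : ℕ) : Prop :=
  IsGreatest {n : ℕ | ∃ A : Finset P, IsAntichain (· ≤ ·) (A : Set P) ∧ A.card = n} w

end Pool.Agent.H112Z.Ldim
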