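import Pool.Agent.H112Z.LdimDefs
import Pool.Agent.H643R2.ChainDec

/-!
# Local dimension is at most the width
-/

namespace Pool.Agent.H112Z.Ldim

variable {P : Type} [PartialOrder P]

/-- the relation which puts the chain `C` over everything incomparable to it -/
def ovr (C : Set P) (x y : P) : Prop := x ≤ y ∨ ∃ b ∈ C, b ≤ y ∧ ¬ b ≤ x

theorem over_po (C : Set P) (hC : ∀ a ∈ C, ∀ b ∈ C, a ≤ b ∨ b ≤ a) :
    IsPartialOrder P (ovr C) where
  refl := fun x => Or.inl le_rfl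
  trans := by
    rintro x y z (h | ⟨b, hb, h1, h2⟩) (h' | ⟨b', hb', h1', h2'⟩)
    · exact Or.inl (h.trans h')
    · exact Or.inr ⟨b', hb', h1', fun hx => h2' (hx.trans h)⟩
    · exact Or.inr ⟨b, hb, h1.trans h', h2⟩
    · rcases hC b hb b' hb' with h3 | h3
      · exact Or.inr ⟨b, hb, h3.trans h1', h2⟩
      · exact absurd (h3.trans h1) h2'
  antisymm := by
    rintro x y (h | ⟨b, hb, h1, h2⟩) (h' | ⟨b', hb', h1', h2'⟩)
    · exact le_antisymm h h'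
    · exact absurd (h1'.trans h) h2'
    · exact absurd (h1.trans h') h2
    · rcases hC b hb b' hb' with h3 | h3
      · exact absurd (h3.trans h1') h2
      · exact absurd (h3.trans h1) h2'

theorem exists_ple (C : Set P) (hC : ∀ a ∈ C, ∀ b ∈ C, a ≤ b ∨ b ≤ a) :
    ∃ L : PLE P, (∀ x y, x < y → L.lt x y) ∧ ∀ x ∈ C, ∀ y, ¬ x ≤ y → L.lt y x := by
  haveI := over_po C hC
  obtain ⟨s, hs, hle⟩ := extend_partialOrder (ovr C)
  have hanti : ∀ x y, s x y → s y x → x = y := fun x y h1 h2 => hs.antisymm x y h1 h2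
  have htr : ∀ x y z, s x y → s y z → s x z := fun x y z h1 h2 => hs.trans x y z h1 h2
  have htot : ∀ x y, s x y ∨ s y x := fun x y => hs.total x y
  refine ⟨⟨Set.univ, fun x y => s x y ∧ x ≠ y, fun _ _ _ => ⟨trivial, trivial⟩,
    fun x h => h.2 rfl, ?_, ?_, ?_⟩, ?_, ?_⟩
  · rintro x y z ⟨h1, h2⟩ ⟨h3, h4⟩
    refine ⟨htr _ _ _ h1 h3, ?_⟩
    rintro rfl
    exact h2 (hanti _ _ h1 h3)
  · intro x _ y _ hxy
    rcases htot x y with h | h
    · exact Or.inl ⟨h, hxy⟩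
    · exact Or.inr ⟨h, hxy.symm⟩
  · intro x _ y _ hxy
    exact ⟨hle x y (Or.inl hxy.le), hxy.ne⟩
  · intro x y hxy
    exact ⟨hle x y (Or.inl hxy.le), hxy.ne⟩
  · intro x hx y hxy
    refine ⟨hle y x (Or.inr ⟨x, hx, le_rfl, hxy⟩), ?_⟩
    rintro rfl
    exact hxy le_rfl

theorem exists_realizer (w : ℕ)
    (h : ∀ A : Finset P, IsAntichain (· ≤ ·) (A : Set P) → A.card ≤ w) :
    ∃ 𝓛 : Set (PLE P), IsLocalRealizer 𝓛 ∧ ∀ x : P, {L ∈ 𝓛 | x ∈ L.dom}.encard ≤ w := by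
  obtain ⟨f, hf⟩ := Pool.Agent.H643R2.ChainDec.dilworth (α := P) w (fun S hS => h S (by
    intro a ha b hb hab hle
    exact hab (hS a ha b hb hle)))
  have hch : ∀ i : Fin w, ∀ a ∈ {a | f a = i}, ∀ b ∈ {a | f a = i}, a ≤ b ∨ b ≤ a := by
    intro i a ha b hb
    exact hf a b (ha.trans hb.symm)
  choose L hL1 hL2 using fun i : Fin w => exists_ple {a | f a = i} (hch i)
  refine ⟨Set.range L, ⟨fun x y hxy => ⟨L (f x), ⟨_, rfl⟩, hL1 _ x y hxy⟩,
    fun x y hxy _ => ⟨L (f x), ⟨_, rfl⟩, hL2 _ x rfl y hxy⟩⟩, fun x => ?_⟩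
  calc {M ∈ Set.range L | x ∈ M.dom}.encard ≤ (Set.range L).encard :=
        Set.encard_le_encard (fun M hM => hM.1)
    _ ≤ (Set.univ : Set (Fin w)).encard := by
        rw [← Set.image_univ]; exact Set.encard_image_le _ _
    _ = w := by simp

theorem ldim_le (w : ℕ) (h : HasWidth P w) : ldim P ≤ w :=
  Nat.sInf_le (exists_realizer w (fun A hA => h.2 ⟨A, hA, rfl⟩))

end Pool.Agent.H112Z.Ldim
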