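import Mathlib

/-!
# Finite Ramsey theorem for pairs, with finitely many colours
-/

namespace Pool.Agent.H112Z.Ramsey

open Finset

theorem ramsey_aux {κ : Type} [Fintype κ] [DecidableEq κ] [Nonempty κ] :
    ∀ (N : ℕ) (f : κ → ℕ), ∑ k, f k = N → ∃ n : ℕ, ∀ (α : Type) [LinearOrder α]
      (c : α → α → κ) (S : Finset α), n ≤ S.card →
      ∃ k, ∃ T ⊆ S, T.card = f k ∧ ∀ i ∈ T, ∀ j ∈ T, i < j → c i j = k := by
  intro N
  induction N using Nat.strong_induction_on with
  | _ N ih =>
    intro f hf
    by_cases h0 : ∃ k, f k = 0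
    · obtain ⟨k, hk⟩ := h0
      exact ⟨0, fun α _ c S _ => ⟨k, ∅, empty_subset _, by simp [hk], by simp⟩⟩
    push Not at h0
    have hlt : ∀ k, ∑ k', Function.update f k (f k - 1) k' < N := by
      intro k
      rw [← hf]
      apply Finset.sum_lt_sum
      · intro i _
        by_cases h : i = k
        · subst h; simp
        · simp [Function.update_of_ne h]
      · refine ⟨k, mem_univ _, ?_⟩
        have := h0 k
        simp only [Function.update_self]; omega
    choose n hn using fun k => ih _ (hlt k) (Function.update f k (f k - 1)) rfl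
    refine ⟨∑ k, n k + 2, fun α _ c S hS => ?_⟩
    have hne : S.Nonempty := card_pos.mp (by omega)
    set x := S.min' hne with hx
    have hxS : x ∈ S := S.min'_mem hne
    have hcard : (S.erase x).card = ∑ k, ((S.erase x).filter (fun y => c x y = k)).card :=
      card_eq_sum_card_fiberwise (f := fun y => c x y) (t := univ) (fun _ _ => mem_univ _)
    have hex : ∃ k, n k ≤ ((S.erase x).filter (fun y => c x y = k)).card := by
      by_contra hcon
      push Not at hcon
      have h1 : ∑ k, ((S.erase x).filter (fun y => c x y = k)).card ≤ ∑ k, n k :=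
        sum_le_sum (fun k _ => (hcon k).le)
      rw [card_erase_of_mem hxS] at hcard
      omega
    obtain ⟨k, hk⟩ := hex
    obtain ⟨k', T, hT, hTc, hTm⟩ := hn k α c _ hk
    have hTS : T ⊆ S.erase x := hT.trans (filter_subset _ _)
    by_cases hkk : k' = k
    · subst hkk
      have hxT : x ∉ T := fun h => by simpa using hTS h
      refine ⟨k', insert x T, ?_, ?_, ?_⟩
      · exact insert_subset hxS (hTS.trans (erase_subset _ _))
      · rw [card_insert_of_notMem hxT, hTc]
        have := h0 k'
        simp only [Function.update_self]; omega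
      · intro i hi j hj hij
        rcases mem_insert.mp hi with rfl | hi
        · rcases mem_insert.mp hj with rfl | hj
          · exact absurd hij (lt_irrefl _)
          · exact (mem_filter.mp (hT hj)).2
        · rcases mem_insert.mp hj with rfl | hj
          · exact absurd hij (not_lt.mpr (S.min'_le i (mem_of_mem_erase (hTS hi))))
          · exact hTm i hi j hj hij
    · refine ⟨k', T, hTS.trans (erase_subset _ _), ?_, hTm⟩
      rw [hTc, Function.update_of_ne hkk]

/-- Finite Ramsey theorem for pairs. -/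
theorem ramsey (κ : Type) [Fintype κ] [Nonempty κ] (m : ℕ) :
    ∃ n : ℕ, ∀ c : Fin (n + 1) → Fin (n + 1) → κ, ∃ (s : ℕ → Fin (n + 1)) (k : κ),
      ∀ a b, a < b → b < m → s a < s b ∧ c (s a) (s b) = k := by
  classical
  obtain ⟨n, hn⟩ := ramsey_aux (κ := κ) _ (fun _ => m) rfl
  refine ⟨n, fun c => ?_⟩
  obtain ⟨k, T, -, hT, hm⟩ := hn (Fin (n + 1)) c univ (by simp)
  let e := T.orderEmbOfFin hT
  refine ⟨fun a => if h : a < m then e ⟨a, h⟩ else 0, k, fun a b hab hb => ?_⟩
  have ha : a < m := hab.trans hb
  simp only [ha, hb, dif_pos]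
  have hlt : e ⟨a, ha⟩ < e ⟨b, hb⟩ := e.strictMono (by exact hab)
  exact ⟨hlt, hm _ (T.orderEmbOfFin_mem hT _) _ (T.orderEmbOfFin_mem hT _) hlt⟩

end Pool.Agent.H112Z.Ramsey
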