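import Pool.Agent.H112Z.LdimPoset
import Pool.Agent.H112Z.LdimUpper
import Pool.Agent.H112Z.Ramsey

/-!
# The shift poset has local dimension `w`
-/

namespace Pool.Agent.H112Z.Ldim

open Finset

/-- the data produced by the Ramsey argument -/
structure Data (w K n t m : ℕ) where
  fam : Set (PLE (Pt w K n))
  lab : Pt w K n → PLE (Pt w K n) → Fin t
  hlab : ∀ x, Set.InjOn (lab x) {L ∈ fam | x ∈ L.dom}
  s : ℕ → Fin (n + 1)
  hs : ∀ a b, a < b → b < m → s a < s b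
  hm : Fintype.card (Win w K × Fin t) + 3 ≤ m
  Le : Edge w K → PLE (Pt w K n)
  hLe : ∀ e, Le e ∈ fam
  h1 : ∀ e a b, a < b → b < m → (Le e).lt (pt (tgt e) (s a)) (pt (src e) (s b))

namespace Data

variable {w K n t m : ℕ} (D : Data w K n t m)

theorem src_mem (e : Edge w K) (a : ℕ) (h : 1 ≤ a) (h' : a < m) :
    pt (src e) (D.s a) ∈ (D.Le e).dom :=
  ((D.Le e).mem_of_lt _ _ (D.h1 e 0 a h h')).2

theorem tgt_mem (e : Edge w K) (a : ℕ) (h' : a + 1 < m) :
    pt (tgt e) (D.s a) ∈ (D.Le e).dom :=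
  ((D.Le e).mem_of_lt _ _ (D.h1 e a (a + 1) (Nat.lt_succ_self _) h')).1

theorem step1 (e : Edge w K) (a : ℕ) (h : 1 ≤ a) (h' : a + 2 < m) :
    (D.Le e).lt (pt (src e) (D.s a)) (pt (tgt e) (D.s (a + 1))) :=
  (D.Le e).extends_lt _ (D.src_mem e a h (by omega)) _ (D.tgt_mem e (a + 1) h')
    ((src_lt_tgt e _ _).mpr (D.hs a (a + 1) (Nat.lt_succ_self _) (by omega)))

theorem step2 (e : Edge w K) (a : ℕ) (h' : a + 2 < m) :
    (D.Le e).lt (pt (tgt e) (D.s a)) (pt (src e) (D.s (a + 1))) :=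
  D.h1 e a (a + 1) (Nat.lt_succ_self _) (by omega)

def su (e : Edge w K) : Win w K × Fin t := (src e, D.lab (pt (src e) (D.s 1)) (D.Le e))
def tu (e : Edge w K) : Win w K × Fin t := (tgt e, D.lab (pt (tgt e) (D.s 1)) (D.Le e))

def Gr : SimpleGraph (Win w K × Fin t) :=
  SimpleGraph.fromRel (fun u v => ∃ e, u = D.su e ∧ v = D.tu e)

/-- `u` is labelled by the partial linear extension `L` -/
def Lab (L : PLE (Pt w K n)) (u : Win w K × Fin t) : Prop :=
  L ∈ D.fam ∧ pt u.1 (D.s 1) ∈ L.dom ∧ D.lab (pt u.1 (D.s 1)) L = u.2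

include D in
theorem three_le : 3 ≤ m := by have := D.hm; omega

theorem lab_su (e : Edge w K) : D.Lab (D.Le e) (D.su e) :=
  ⟨D.hLe e, D.src_mem e 1 le_rfl (by have := D.three_le; omega), rfl⟩

theorem lab_tu (e : Edge w K) : D.Lab (D.Le e) (D.tu e) :=
  ⟨D.hLe e, D.tgt_mem e 1 (by have := D.three_le; omega), rfl⟩

theorem lab_unique {L L' : PLE (Pt w K n)} {u : Win w K × Fin t} (h : D.Lab L u)
    (h' : D.Lab L' u) : L = L' :=
  D.hlab _ ⟨h.1, h.2.1⟩ ⟨h'.1, h'.2.1⟩ (h.2.2.trans h'.2.2.symm)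

theorem adj_cases {u v : Win w K × Fin t} (h : D.Gr.Adj u v) :
    ∃ e, (u = D.su e ∧ v = D.tu e) ∨ (u = D.tu e ∧ v = D.su e) := by
  rw [Gr, SimpleGraph.fromRel_adj] at h
  rcases h.2 with ⟨e, h1, h2⟩ | ⟨e, h1, h2⟩
  · exact ⟨e, Or.inl ⟨h1, h2⟩⟩
  · exact ⟨e, Or.inr ⟨h2, h1⟩⟩

theorem adj_su_tu (e : Edge w K) : D.Gr.Adj (D.su e) (D.tu e) := by
  rw [Gr, SimpleGraph.fromRel_adj]
  exact ⟨fun h => src_ne_tgt e (congrArg (fun u : Win w K × Fin t => u.1.1) h),
    Or.inl ⟨e, rfl, rfl⟩⟩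

theorem adj_lab {u v : Win w K × Fin t} (h : D.Gr.Adj u v) : ∃ L, D.Lab L u := by
  obtain ⟨e, ⟨rfl, -⟩ | ⟨rfl, -⟩⟩ := D.adj_cases h
  · exact ⟨_, D.lab_su e⟩
  · exact ⟨_, D.lab_tu e⟩

theorem adj_step {u v : Win w K × Fin t} (h : D.Gr.Adj u v) {L : PLE (Pt w K n)}
    (hL : D.Lab L u) : D.Lab L v ∧ ∀ a, 1 ≤ a → a + 2 < m →
      L.lt (pt u.1 (D.s a)) (pt v.1 (D.s (a + 1))) := by
  obtain ⟨e, ⟨rfl, rfl⟩ | ⟨rfl, rfl⟩⟩ := D.adj_cases h
  · rw [D.lab_unique hL (D.lab_su e)]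
    exact ⟨D.lab_tu e, fun a h1 h2 => D.step1 e a h1 h2⟩
  · rw [D.lab_unique hL (D.lab_tu e)]
    exact ⟨D.lab_su e, fun a _ h2 => D.step2 e a h2⟩

theorem walk_step {u v : Win w K × Fin t} (p : D.Gr.Walk u v) {L : PLE (Pt w K n)}
    (hL : D.Lab L u) : D.Lab L v ∧ ∀ a, 1 ≤ a → a + p.length + 1 < m →
      ((p.length = 0 ∧ u = v) ∨ L.lt (pt u.1 (D.s a)) (pt v.1 (D.s (a + p.length)))) := by
  induction p with
  | nil => exact ⟨hL, fun _ _ _ => Or.inl ⟨rfl, rfl⟩⟩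
  | @cons u u' v h q ih =>
    obtain ⟨h1, h2⟩ := D.adj_step h hL
    obtain ⟨h3, h4⟩ := ih h1
    refine ⟨h3, fun a ha hb => ?_⟩
    simp only [SimpleGraph.Walk.length_cons] at hb ⊢
    right
    have h5 := h2 a ha (by omega)
    have e1 : a + (q.length + 1) = a + 1 + q.length := by omega
    rcases h4 (a + 1) (by omega) (by omega) with ⟨h0, h6⟩ | h6
    · subst h6
      rw [h0]; exact h5
    · rw [e1]; exact L.trans _ _ _ h5 h6

theorem not_below {u v : Win w K × Fin t} (h : D.Gr.Reachable u v) (huv : u ≠ v)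
    (hb : ∀ i k : Fin (n + 1), pt v.1 i < pt u.1 k) : False := by
  classical
  obtain ⟨p0⟩ := h
  let p := p0.bypass
  have hp : p.IsPath := p0.bypass_isPath
  have hlen := hp.length_lt
  have hex : ∃ L, D.Lab L u := by
    cases p0 with
    | nil => exact absurd rfl huv
    | cons h _ => exact D.adj_lab h
  obtain ⟨L, hL⟩ := hex
  have hm := D.hm
  rcases (D.walk_step p hL).2 1 le_rfl (by omega) with h1 | h1
  · exact huv h1.2
  · have h2 := L.mem_of_lt _ _ h1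
    have h3 := L.extends_lt _ h2.2 _ h2.1 (hb _ _)
    exact L.irrefl _ (L.trans _ _ _ h1 h3)

theorem eq_of_reach {u v : Win w K × Fin t} (h : D.Gr.Reachable u v) (hc : u.1.1 = v.1.1) :
    u = v := by
  by_contra huv
  by_cases hW : u.1 = v.1
  · obtain ⟨p⟩ := h
    have hex : ∃ L, D.Lab L u := by
      cases p with
      | nil => exact absurd rfl huv
      | cons h _ => exact D.adj_lab h
    obtain ⟨L, hL⟩ := hex
    have hv := (D.walk_step p hL).1
    apply huv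
    refine Prod.ext hW ?_
    rw [← hL.2.2, ← hv.2.2, hW]
  · rcases win_ne (n := n) hc hW with h1 | h1
    · exact D.not_below h.symm (Ne.symm huv) h1
    · exact D.not_below h huv (fun i k => h1 k i)

open Classical in
theorem comp_count (c : D.Gr.ConnectedComponent) :
    w * (univ.filter (fun e : Edge w K => D.Gr.connectedComponentMk (D.su e) = c)).card ≤
      (w - 1) * (univ.filter (fun u => D.Gr.connectedComponentMk u = c)).card := by
  set E := univ.filter (fun e : Edge w K => D.Gr.connectedComponentMk (D.su e) = c) with hE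
  set V := univ.filter (fun u => D.Gr.connectedComponentMk u = c) with hV
  have hVr : ∀ u ∈ V, ∀ v ∈ V, u.1.1 = v.1.1 → u = v := by
    intro u hu v hv h
    have h1 := (mem_filter.mp hu).2
    have h2 := (mem_filter.mp hv).2
    exact D.eq_of_reach (SimpleGraph.ConnectedComponent.exact (h1.trans h2.symm)) h
  have hVw : V.card ≤ w := by
    have hinj : Set.InjOn (fun u : Win w K × Fin t => u.1.1) (V : Set _) :=
      fun u hu v hv h => hVr u hu v hv h
    have := card_le_card (subset_univ (V.image (fun u : Win w K × Fin t => u.1.1)))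
    rwa [card_image_of_injOn hinj, card_univ, Fintype.card_fin] at this
  obtain ⟨u0, hu0⟩ := c.exists_rep
  have hu0V : u0 ∈ V := mem_filter.mpr ⟨mem_univ _, hu0⟩
  have hsu : ∀ e ∈ E, D.su e ∈ V := fun e he => mem_filter.mpr ⟨mem_univ _, (mem_filter.mp he).2⟩
  have htu : ∀ e ∈ E, D.tu e ∈ V := fun e he => mem_filter.mpr ⟨mem_univ _, by
    rw [← (mem_filter.mp he).2]
    exact SimpleGraph.ConnectedComponent.sound (D.adj_su_tu e).reachable.symm⟩
  let pos : Win w K × Fin t → (J w → ℚ) := fun u j => (val u.1 j : ℚ)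
  let vec : Win w K × Fin t → (J w → ℚ) := fun u => pos u - pos u0
  let S : Finset (J w → ℚ) := (V.erase u0).image vec
  have hspan : ∀ u ∈ V, vec u ∈ Submodule.span ℚ (S : Set (J w → ℚ)) := by
    intro u hu
    by_cases h : u = u0
    · have : vec u = 0 := by simp [vec, h]
      rw [this]; exact Submodule.zero_mem _
    · exact Submodule.subset_span (mem_coe.mpr (mem_image_of_mem _ (mem_erase.mpr ⟨h, hu⟩)))
  have hjinj : Function.Injective (fun e : E => jj e.1) := by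
    intro e e' h
    have h1 : D.su e.1 = D.su e'.1 := by
      apply hVr _ (hsu _ e.2) _ (hsu _ e'.2)
      have h2 : e.1.1.1 = e'.1.1.1 := toLex_inj.mp h
      change e.1.1.1.1 = e'.1.1.1.1
      rw [h2]
    exact Subtype.ext (edge_ext h (congrArg Prod.fst h1))
  have hli : LinearIndependent ℚ (fun e : E => (Pi.single (jj e.1) 1 : J w → ℚ)) :=
    (Pi.linearIndependent_single_one (J w) ℚ).comp _ hjinj
  have hle := linearIndependent_le_span_aux' _ hli (S : Set (J w → ℚ)) (by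
    rintro _ ⟨e, rfl⟩
    have h1 : (Pi.single (jj e.1) 1 : J w → ℚ) = vec (D.tu e.1) - vec (D.su e.1) := by
      funext j
      simp only [vec, pos, tu, su, val_tgt, Pi.sub_apply, Pi.add_apply]
      by_cases h : j = jj e.1
      · subst h; simp
      · simp [h]
    change (Pi.single (jj e.1) 1 : J w → ℚ) ∈ Submodule.span ℚ (S : Set (J w → ℚ))
    rw [h1]
    exact Submodule.sub_mem _ (hspan _ (htu _ e.2)) (hspan _ (hsu _ e.2)))
  have h2 : S.card ≤ V.card - 1 := by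
    rw [← card_erase_of_mem hu0V]; exact card_image_le
  have h3 : E.card ≤ V.card - 1 := by
    simp only [Fintype.card_coe, Finset.coe_sort_coe] at hle
    exact hle.trans h2
  have h4 : 1 ≤ V.card := card_pos.mpr ⟨u0, hu0V⟩
  obtain ⟨v, hv⟩ : ∃ v, V.card = v + 1 := ⟨V.card - 1, by omega⟩
  obtain ⟨w', rfl⟩ : ∃ w', w = w' + 1 := ⟨w - 1, by omega⟩
  rw [hv] at h3 hVw ⊢
  simp only [Nat.add_sub_cancel] at h3 ⊢
  nlinarith

include D in
theorem count : w * Fintype.card (Edge w K) ≤ (w - 1) * Fintype.card (Win w K × Fin t) := by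
  classical
  let _ : Fintype D.Gr.ConnectedComponent := Fintype.ofFinite _
  have h1 : Fintype.card (Edge w K) = ∑ c : D.Gr.ConnectedComponent,
      (univ.filter (fun e : Edge w K => D.Gr.connectedComponentMk (D.su e) = c)).card :=
    card_eq_sum_card_fiberwise (f := fun e => D.Gr.connectedComponentMk (D.su e)) (t := univ)
      (fun _ _ => mem_univ _)
  have h2 : Fintype.card (Win w K × Fin t) = ∑ c : D.Gr.ConnectedComponent,
      (univ.filter (fun u => D.Gr.connectedComponentMk u = c)).card :=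
    card_eq_sum_card_fiberwise (f := fun u => D.Gr.connectedComponentMk u) (t := univ)
      (fun _ _ => mem_univ _)
  rw [h1, h2, mul_sum, mul_sum]
  exact sum_le_sum (fun c _ => by convert D.comp_count c)

end Data

theorem exists_data (w K t : ℕ) : ∃ n m, ∀ 𝓛 : Set (PLE (Pt w K n)), IsLocalRealizer 𝓛 →
    (∀ x, {L ∈ 𝓛 | x ∈ L.dom}.encard ≤ (t + 1 : ℕ)) → Nonempty (Data w K n (t + 1) m) := by
  classical
  set m := Fintype.card (Win w K × Fin (t + 1)) + 3 with hm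
  obtain ⟨n, hn⟩ := Pool.Agent.H112Z.Ramsey.ramsey (Edge w K → Fin (t + 1) × Fin (t + 1)) m
  refine ⟨n, m, fun 𝓛 h𝓛 hfreq => ?_⟩
  have hlab : ∀ x : Pt w K n, ∃ f : PLE (Pt w K n) → Fin (t + 1),
      Set.InjOn f {L ∈ 𝓛 | x ∈ L.dom} := by
    intro x
    have hfin : {L ∈ 𝓛 | x ∈ L.dom}.Finite := Set.finite_of_encard_le_coe (hfreq x)
    obtain ⟨f, -, hf⟩ := hfin.exists_injOn_of_encard_le (t := (Set.univ : Set (Fin (t + 1))))
      (by simpa using hfreq x)
    exact ⟨f, hf⟩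
  choose lab hlab using hlab
  let L0 : PLE (Pt w K n) := ⟨∅, fun _ _ => False, fun _ _ h => h.elim, fun _ h => h,
    fun _ _ _ h _ => h, fun _ h => h.elim, fun _ h => h.elim⟩
  have hL : ∀ (e : Edge w K) (k i : Fin (n + 1)), ∃ L : PLE (Pt w K n), k < i →
      L ∈ 𝓛 ∧ L.lt (pt (tgt e) k) (pt (src e) i) := by
    intro e k i
    by_cases h : k < i
    · obtain ⟨h1, h2⟩ := edge_inc e i k h
      obtain ⟨L, h3, h4⟩ := h𝓛.2 _ _ h1 h2
      exact ⟨L, fun _ => ⟨h3, h4⟩⟩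
    · exact ⟨L0, fun h' => absurd h' h⟩
  choose Lf hLf using hL
  obtain ⟨s, col, hs⟩ := hn (fun k i e =>
    (lab (pt (src e) i) (Lf e k i), lab (pt (tgt e) k) (Lf e k i)))
  have hmem : ∀ e a b, a < b → b < m → Lf e (s a) (s b) ∈ 𝓛 ∧
      (Lf e (s a) (s b)).lt (pt (tgt e) (s a)) (pt (src e) (s b)) :=
    fun e a b h1 h2 => hLf e _ _ (hs a b h1 h2).1
  have hA : ∀ e a a' b, a < b → a' < b → b < m → Lf e (s a) (s b) = Lf e (s a') (s b) := by
    intro e a a' b h1 h2 h3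
    have k1 := hmem e a b h1 h3
    have k2 := hmem e a' b h2 h3
    apply hlab (pt (src e) (s b)) ⟨k1.1, (PLE.mem_of_lt _ _ _ k1.2).2⟩
      ⟨k2.1, (PLE.mem_of_lt _ _ _ k2.2).2⟩
    have c1 := congrArg Prod.fst (congrFun (hs a b h1 h3).2 e)
    have c2 := congrArg Prod.fst (congrFun (hs a' b h2 h3).2 e)
    exact c1.trans c2.symm
  have hB : ∀ e a b b', a < b → a < b' → b < m → b' < m →
      Lf e (s a) (s b) = Lf e (s a) (s b') := by
    intro e a b b' h1 h2 h3 h4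
    have k1 := hmem e a b h1 h3
    have k2 := hmem e a b' h2 h4
    apply hlab (pt (tgt e) (s a)) ⟨k1.1, (PLE.mem_of_lt _ _ _ k1.2).1⟩
      ⟨k2.1, (PLE.mem_of_lt _ _ _ k2.2).1⟩
    have c1 := congrArg Prod.snd (congrFun (hs a b h1 h3).2 e)
    have c2 := congrArg Prod.snd (congrFun (hs a b' h2 h4).2 e)
    exact c1.trans c2.symm
  have hm3 : 3 ≤ m := by omega
  refine ⟨⟨𝓛, lab, hlab, s, fun a b h1 h2 => (hs a b h1 h2).1, le_rfl,
    fun e => Lf e (s 0) (s 1), fun e => (hmem e 0 1 (by omega) (by omega)).1, ?_⟩⟩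
  intro e a b h1 h2
  have : Lf e (s 0) (s 1) = Lf e (s a) (s b) :=
    (hB e 0 1 b (by omega) (by omega) (by omega) h2).trans (hA e 0 a b (by omega) h1 h2)
  rw [this]
  exact (hmem e a b h1 h2).2

theorem numeric (t : ℕ) : ∃ K : ℕ,
    (t + 1) * (K + 1) ^ ((t + 2) * (t + 2)) < (t + 2) * K ^ ((t + 2) * (t + 2)) := by
  set M := (t + 2) * (t + 2) with hM
  refine ⟨M * (t + 2), ?_⟩
  set K := M * (t + 2) with hK
  have hpos : (0 : ℝ) < (K : ℝ) + 1 := by positivity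
  have h1 : (1 : ℝ) + (M : ℝ) * (-(1 / ((K : ℝ) + 1))) ≤ (1 + -(1 / ((K : ℝ) + 1))) ^ M := by
    apply one_add_mul_le_pow
    have : 1 / ((K : ℝ) + 1) ≤ 1 := by
      rw [div_le_one hpos]; have : (0 : ℝ) ≤ K := by positivity
      linarith
    linarith
  have h2 : (1 + -(1 / ((K : ℝ) + 1))) = K / (K + 1) := by field_simp; ring
  rw [h2, div_pow, le_div_iff₀ (by positivity)] at h1
  have h3 : ((t : ℝ) + 1) < ((t : ℝ) + 2) * (1 + (M : ℝ) * (-(1 / ((K : ℝ) + 1)))) := by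
    have hKr : (K : ℝ) = M * (t + 2) := by rw [hK]; push_cast; ring
    have : ((t : ℝ) + 2) * ((M : ℝ) * (1 / ((K : ℝ) + 1))) < 1 := by
      have e : ((t : ℝ) + 2) * ((M : ℝ) * (1 / ((K : ℝ) + 1))) = K / (K + 1) := by
        rw [hKr]; field_simp
      rw [e, div_lt_one hpos]; linarith
    nlinarith
  have h4 : ((t : ℝ) + 1) * ((K : ℝ) + 1) ^ M < ((t : ℝ) + 2) * (K : ℝ) ^ M := by
    have hp : (0 : ℝ) < ((K : ℝ) + 1) ^ M := by positivity
    calc ((t : ℝ) + 1) * ((K : ℝ) + 1) ^ M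
        < ((t : ℝ) + 2) * (1 + (M : ℝ) * (-(1 / ((K : ℝ) + 1)))) * ((K : ℝ) + 1) ^ M :=
          mul_lt_mul_of_pos_right h3 hp
      _ ≤ ((t : ℝ) + 2) * (K : ℝ) ^ M := by
          rw [mul_assoc]; exact mul_le_mul_of_nonneg_left h1 (by positivity)
  exact_mod_cast h4

theorem lower_two (t : ℕ) : ∃ K n, ldim (Pt (t + 2) K n) = t + 2 := by
  obtain ⟨K, hK⟩ := numeric t
  obtain ⟨n, m, h⟩ := exists_data (t + 2) K t
  refine ⟨K, n, le_antisymm (ldim_le _ hasWidth) ?_⟩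
  refine le_csInf ⟨t + 2, exists_realizer (t + 2) (fun A hA => hasWidth.2 ⟨A, hA, rfl⟩)⟩ ?_
  rintro r ⟨𝓛, h1, h2⟩
  by_contra hr
  obtain ⟨D⟩ := h 𝓛 h1 (fun x => (h2 x).trans (by exact_mod_cast (by omega : r ≤ t + 1)))
  have hc := D.count
  rw [card_Edge, Fintype.card_prod, card_Win, Fintype.card_fin] at hc
  have e1 : (t + 2) * (t + 2) - (t + 2) = (t + 2) * (t + 1) := by
    apply Nat.sub_eq_of_eq_add; ring
  rw [e1] at hc
  simp only [show t + 2 - 1 = t + 1 from rfl] at hc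
  set A := K ^ ((t + 2) * (t + 2))
  set B := (K + 1) ^ ((t + 2) * (t + 2))
  have h3 : ((t + 2) * (t + 1)) * ((t + 2) * A) ≤ ((t + 2) * (t + 1)) * ((t + 1) * B) := by
    calc ((t + 2) * (t + 1)) * ((t + 2) * A) = (t + 2) * ((t + 2) * (t + 1) * A) := by ring
      _ ≤ (t + 1) * ((t + 2) * B * (t + 1)) := hc
      _ = ((t + 2) * (t + 1)) * ((t + 1) * B) := by ring
  have h4 := Nat.le_of_mul_le_mul_left h3 (by positivity)
  omega

theorem lower_one : ldim (Pt 1 0 1) = 1 := by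
  refine le_antisymm (ldim_le _ hasWidth) ?_
  refine le_csInf ⟨1, exists_realizer 1 (fun A hA => hasWidth.2 ⟨A, hA, rfl⟩)⟩ ?_
  rintro r ⟨𝓛, h1, h2⟩
  let W : Win 1 0 := (0, fun _ => 0)
  have hlt : pt (n := 1) W 0 < pt W 1 := by
    rw [pt_lt_pt, sh_self, add_zero, G_lt_self]; decide
  obtain ⟨L, hL, hL2⟩ := h1.1 _ _ hlt
  have h3 : {M ∈ 𝓛 | pt W 0 ∈ M.dom}.Nonempty := ⟨L, hL, (L.mem_of_lt _ _ hL2).1⟩
  have h4 := (Set.one_le_encard_iff_nonempty.mpr h3).trans (h2 _)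
  exact_mod_cast h4

theorem main (w : ℕ) (hw : 1 ≤ w) :
    IsGreatest {d : ℕ | ∃ (P : Type) (_ : Fintype P) (_ : PartialOrder P),
      HasWidth P w ∧ ldim P = d} w := by
  constructor
  · rcases Nat.lt_or_ge w 2 with h | h
    · obtain rfl : w = 1 := by omega
      exact ⟨Pt 1 0 1, inferInstance, inferInstance, hasWidth, lower_one⟩
    · obtain ⟨t, rfl⟩ : ∃ t, w = t + 2 := ⟨w - 2, by omega⟩
      obtain ⟨K, n, h⟩ := lower_two t
      exact ⟨Pt (t + 2) K n, inferInstance, inferInstance, hasWidth, h⟩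
  · rintro d ⟨P, _, _, h1, rfl⟩
    exact ldim_le w h1

end Pool.Agent.H112Z.Ldim
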