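import Pool.Agent.H112Z.LdimDefs

/-!
# The shift poset of width `w`
-/

namespace Pool.Agent.H112Z.Ldim

open Finset

abbrev J (w : ℕ) := Fin w ×ₗ Fin w
abbrev Gam (w : ℕ) := ℕ ×ₗ (Lex (J w → ℕ) ×ₗ ℕ)
abbrev Win (w K : ℕ) := Fin w × (J w → Fin (K + 1))

variable {w K n : ℕ}

def G (x : J w → ℕ) (i : ℕ) : Gam w := toLex (∑ j, x j, toLex (toLex x, i))

theorem G_add (x y : J w → ℕ) (i k : ℕ) : G (x + y) (i + k) = G x i + G y k := by
  simp only [G, Pi.add_apply, sum_add_distrib]
  rfl

theorem G_lt_iff (x y : J w → ℕ) (i k : ℕ) : G x i < G y k ↔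
    ∑ j, x j < ∑ j, y j ∨ (∑ j, x j = ∑ j, y j ∧ (toLex x < toLex y ∨ (x = y ∧ i < k))) := by
  simp only [G, Prod.Lex.toLex_lt_toLex, toLex_inj]

theorem G_lt_self (x : J w → ℕ) (i k : ℕ) : G x i < G x k ↔ i < k := by
  rw [G_lt_iff]
  constructor
  · rintro (h | ⟨-, h | h⟩)
    · exact absurd h (lt_irrefl _)
    · exact absurd h (lt_irrefl _)
    · exact h.2
  · intro h
    exact Or.inr ⟨rfl, Or.inr ⟨rfl, h⟩⟩

theorem G_ne (x y : J w → ℕ) (h : x ≠ y) :
    (∀ i k, G x i < G y k) ∨ (∀ i k, G y k < G x i) := by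
  rcases lt_trichotomy (∑ j, x j) (∑ j, y j) with h1 | h1 | h1
  · exact Or.inl fun i k => (G_lt_iff _ _ _ _).mpr (Or.inl h1)
  · rcases lt_trichotomy (toLex x) (toLex y) with h2 | h2 | h2
    · exact Or.inl fun i k => (G_lt_iff _ _ _ _).mpr (Or.inr ⟨h1, Or.inl h2⟩)
    · exact absurd (toLex_inj.mp h2) h
    · exact Or.inr fun i k => (G_lt_iff _ _ _ _).mpr (Or.inr ⟨h1.symm, Or.inl h2⟩)
  · exact Or.inr fun i k => (G_lt_iff _ _ _ _).mpr (Or.inl h1)

def sh (p q : Fin w) : J w → ℕ := if p = q then 0 else Pi.single (toLex (p, q)) 1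

theorem sh_self (p : Fin w) : sh p p = 0 := by simp [sh]

theorem sum_sh_ne {p q : Fin w} (h : p ≠ q) : ∑ j, sh p q j = 1 := by
  simp [sh, h]

theorem sum_sh_le (p q : Fin w) : ∑ j, sh p q j ≤ 1 := by
  by_cases h : p = q
  · subst h; simp [sh_self]
  · exact (sum_sh_ne h).le

theorem sh_tri (p q r : Fin w) : G (sh p r) 0 ≤ G (sh p q + sh q r) 0 := by
  by_cases h1 : p = q
  · subst h1; simp [sh_self]
  by_cases h2 : q = r
  · subst h2; simp [sh_self]
  apply le_of_lt
  rw [G_lt_iff]
  left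
  have := sum_sh_le p r
  simp only [Pi.add_apply, sum_add_distrib, sum_sh_ne h1, sum_sh_ne h2]
  omega

/-- the ground set -/
def Pt (w K n : ℕ) : Type := Win w K × Fin (n + 1)

instance : Fintype (Pt w K n) := inferInstanceAs (Fintype (Win w K × Fin (n + 1)))

def pt (W : Win w K) (i : Fin (n + 1)) : Pt w K n := (W, i)

def val (W : Win w K) : J w → ℕ := fun j => (W.2 j : ℕ)

def plt (a b : Pt w K n) : Prop :=
  G (val a.1 + sh a.1.1 b.1.1) a.2 < G (val b.1) b.2

instance : IsStrictOrder (Pt w K n) plt where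
  irrefl := fun a h => by
    simp [plt, sh_self] at h
  trans := fun a b c h1 h2 => by
    unfold plt at *
    have e1 : G (val a.1 + sh a.1.1 c.1.1) a.2 = G (val a.1) a.2 + G (sh a.1.1 c.1.1) 0 := by
      rw [← G_add]; rfl
    have e2 : G (val a.1 + sh a.1.1 b.1.1) a.2 + G (sh b.1.1 c.1.1) 0 =
        G (val a.1) a.2 + G (sh a.1.1 b.1.1 + sh b.1.1 c.1.1) 0 := by
      rw [← G_add, ← G_add, add_assoc]
    have e3 : G (val b.1 + sh b.1.1 c.1.1) b.2 = G (val b.1) b.2 + G (sh b.1.1 c.1.1) 0 := by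
      rw [← G_add]; rfl
    calc G (val a.1 + sh a.1.1 c.1.1) a.2
        ≤ G (val a.1 + sh a.1.1 b.1.1) a.2 + G (sh b.1.1 c.1.1) 0 := by
          rw [e1, e2]; exact add_le_add_right (sh_tri _ _ _) _
      _ < G (val b.1) b.2 + G (sh b.1.1 c.1.1) 0 := add_lt_add_left h1 _
      _ < G (val c.1) c.2 := by rw [← e3]; exact h2

instance : PartialOrder (Pt w K n) := partialOrderOfSO plt

theorem lt_def (a b : Pt w K n) : a < b ↔ plt a b := Iff.rfl
theorem le_def (a b : Pt w K n) : a ≤ b ↔ a = b ∨ plt a b := Iff.rfl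

theorem pt_lt_pt (W W' : Win w K) (i k : Fin (n + 1)) :
    pt W i < pt W' k ↔ G (val W + sh W.1 W'.1) i < G (val W') k := Iff.rfl

theorem val_inj {W W' : Win w K} (h1 : W.1 = W'.1) (h2 : val W = val W') : W = W' := by
  refine Prod.ext h1 (funext fun j => Fin.ext ?_)
  exact congrFun h2 j

/-- two different windows of the same chain -/
theorem win_ne {W W' : Win w K} (h1 : W.1 = W'.1) (h2 : W ≠ W') :
    (∀ i k : Fin (n + 1), pt W i < pt W' k) ∨ (∀ i k : Fin (n + 1), pt W' k < pt W i) := by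
  have h3 : val W ≠ val W' := fun h => h2 (val_inj h1 h)
  rcases G_ne _ _ h3 with h | h
  · left; intro i k
    rw [pt_lt_pt, h1, sh_self, add_zero]; exact h _ _
  · right; intro i k
    rw [pt_lt_pt, h1, sh_self, add_zero]; exact h _ _

theorem chain_comp (a b : Pt w K n) (h : a.1.1 = b.1.1) : a ≤ b ∨ b ≤ a := by
  obtain ⟨W, i⟩ := a
  obtain ⟨W', k⟩ := b
  by_cases h2 : W = W'
  · subst h2
    rcases lt_trichotomy i k with h3 | h3 | h3
    · left
      apply le_of_lt
      change pt W i < pt W k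
      rw [pt_lt_pt, sh_self, add_zero, G_lt_self]; exact h3
    · subst h3; exact Or.inl le_rfl
    · right
      apply le_of_lt
      change pt W k < pt W i
      rw [pt_lt_pt, sh_self, add_zero, G_lt_self]; exact h3
  · rcases win_ne (n := n) h h2 with h3 | h3
    · exact Or.inl (h3 i k).le
    · exact Or.inr (h3 i k).le

theorem hasWidth : HasWidth (Pt w K n) w := by
  classical
  constructor
  · let f : Fin w → Pt w K n := fun p => pt (p, fun _ => 0) 0
    have hf : Function.Injective f := by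
      intro p q h
      exact congrArg (fun a : Pt w K n => a.1.1) h
    refine ⟨univ.image f, ?_, by rw [card_image_of_injective _ hf]; simp⟩
    intro a ha b hb hab hle
    simp only [coe_image, coe_univ, Set.image_univ, Set.mem_range] at ha hb
    obtain ⟨p, rfl⟩ := ha
    obtain ⟨q, rfl⟩ := hb
    have hpq : p ≠ q := fun h => hab (by rw [h])
    have hlt : f p < f q := lt_of_le_of_ne hle hab
    rw [pt_lt_pt, G_lt_iff] at hlt
    have h1 := sum_sh_ne hpq
    simp only [val, Pi.add_apply, Fin.val_zero, zero_add, h1, sum_const_zero] at hlt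
    omega
  · rintro m ⟨A, hA, rfl⟩
    have hinj : Set.InjOn (fun a : Pt w K n => a.1.1) (A : Set _) := by
      intro a ha b hb hab
      by_contra hne
      rcases chain_comp a b hab with h | h
      · exact hA ha hb hne h
      · exact hA hb ha (Ne.symm hne) h
    have := card_le_card (subset_univ (A.image (fun a : Pt w K n => a.1.1)))
    rwa [card_image_of_injOn hinj, card_univ, Fintype.card_fin] at this

/-! ### aligned pairs of windows -/

abbrev OD (w : ℕ) := {pq : Fin w × Fin w // pq.1 ≠ pq.2}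
abbrev Edge (w K : ℕ) := OD w × (J w → Fin K)

def jj (e : Edge w K) : J w := toLex e.1.1
def src (e : Edge w K) : Win w K := (e.1.1.1, fun j => (e.2 j).castSucc)
def tgt (e : Edge w K) : Win w K :=
  (e.1.1.2, fun j => if j = jj e then (e.2 j).succ else (e.2 j).castSucc)

theorem val_tgt (e : Edge w K) : val (tgt e) = val (src e) + Pi.single (jj e) 1 := by
  funext j
  by_cases h : j = jj e
  · subst h; simp [val, tgt, src]
  · simp [val, tgt, src, h]

theorem sh_edge (e : Edge w K) : sh (src e).1 (tgt e).1 = Pi.single (jj e) 1 := by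
  have := e.1.2
  simp only [sh, src, tgt, jj, this, if_false]

theorem src_lt_tgt (e : Edge w K) (i k : Fin (n + 1)) :
    pt (src e) i < pt (tgt e) k ↔ i < k := by
  rw [pt_lt_pt, sh_edge, ← val_tgt, G_lt_self]; rfl

theorem not_tgt_lt_src (e : Edge w K) (i k : Fin (n + 1)) :
    ¬ pt (tgt e) k < pt (src e) i := by
  rw [pt_lt_pt, G_lt_iff, val_tgt]
  simp only [Pi.add_apply, sum_add_distrib]
  have : ∑ j, (Pi.single (jj e) 1 : J w → ℕ) j = 1 := by simp
  omega

theorem src_ne_tgt (e : Edge w K) : (src e).1 ≠ (tgt e).1 := e.1.2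

theorem pt_src_ne (e : Edge w K) (i k : Fin (n + 1)) : pt (src e) i ≠ pt (tgt e) k := fun h =>
  src_ne_tgt e (congrArg (fun a : Pt w K n => a.1.1) h)

theorem edge_inc (e : Edge w K) (i k : Fin (n + 1)) (h : k < i) :
    ¬ pt (src e) i ≤ pt (tgt e) k ∧ ¬ pt (tgt e) k ≤ pt (src e) i := by
  constructor
  · intro hle
    have := lt_of_le_of_ne hle (pt_src_ne e i k)
    rw [src_lt_tgt] at this
    exact absurd h (not_lt.mpr this.le)
  · intro hle
    exact not_tgt_lt_src e i k (lt_of_le_of_ne hle (pt_src_ne e i k).symm)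

theorem edge_ext {e e' : Edge w K} (h1 : jj e = jj e') (h2 : src e = src e') : e = e' := by
  refine Prod.ext (Subtype.ext (toLex_inj.mp h1)) (funext fun j => ?_)
  have := congrFun (congrArg Prod.snd h2) j
  simpa [src] using this

theorem card_OD : Fintype.card (OD w) = w * w - w := by
  classical
  have : Fintype.card (OD w) = (univ : Finset (Fin w)).offDiag.card := by
    rw [Fintype.card_subtype]
    congr 1
    ext ⟨p, q⟩
    simp
  rw [this, offDiag_card]; simp

theorem card_Edge : Fintype.card (Edge w K) = (w * w - w) * K ^ (w * w) := by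
  rw [Fintype.card_prod, card_OD]; simp [J]

theorem card_Win : Fintype.card (Win w K) = w * (K + 1) ^ (w * w) := by
  simp [J]

end Pool.Agent.H112Z.Ldim
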