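import Mathlib

/-!
# Local exponents of Fuchsian operators, and full bases of solutions modulo `p`: definitions

An operator `L = ∑ b_i(x) ∂^i` of order `n` is given by `b : Fin (n + 1) → ℤ[X]`.
-/

namespace Pool.Agent.H112Z.PCurv

open Polynomial

/-- The reduction of `L` modulo `p` has a full basis of rational solutions: `n` solutions in
`F_p(x)` which are linearly independent over the constants. -/
def FullModP {n : ℕ} (b : Fin (n + 1) → ℤ[X]) (p : ℕ) [Fact p.Prime] : Prop :=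
  ∃ D : Derivation ℤ (RatFunc (ZMod p)) (RatFunc (ZMod p)),
    D (RatFunc.X : RatFunc (ZMod p)) = 1 ∧
    ∃ y : Fin n → RatFunc (ZMod p),
      (∀ j : Fin n, ∑ i : Fin (n + 1),
          aeval (RatFunc.X : RatFunc (ZMod p)) (b i) * (⇑D)^[(i : ℕ)] (y j) = 0) ∧
      ∀ c : Fin n → RatFunc (ZMod p), (∀ j, D (c j) = 0) →
        ∑ j : Fin n, c j * y j = 0 → ∀ j, c j = 0

/-- `L` is regular or regular singular at the point `s`, with local exponents `e 0, …, e (n-1)`:
`b_i (x - s)^(n-i) = (x - s)^μ h_i` with `h_n(s) ≠ 0`, and the indicial polynomial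
`∑ h_i(s) T (T-1) ⋯ (T-i+1)` is `h_n(s) ∏ (T - e_j)`. -/
def ExpAt {n : ℕ} (b : Fin (n + 1) → ℤ[X]) (s : AlgebraicClosure ℚ) (e : Fin n → ℚ) : Prop :=
  ∃ (μ : ℕ) (h : Fin (n + 1) → (AlgebraicClosure ℚ)[X]),
    (∀ i, (b i).map (Int.castRingHom _) * (X - C s) ^ (n - i) = (X - C s) ^ μ * h i) ∧
    (h (Fin.last n)).eval s ≠ 0 ∧
    ∑ i : Fin (n + 1), C ((h i).eval s) * descPochhammer _ i =
      C ((h (Fin.last n)).eval s) * ∏ j, (X - C (e j : AlgebraicClosure ℚ))

/-- `L` is regular or regular singular at infinity, with local exponents `a 0, …, a (n-1)` (for the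
parameter `1/x`): `deg (b_i x^(n-i)) ≤ deg b_n = ν`, and with `β_i` the coefficient of `x^ν` in
`b_i x^(n-i)`, the polynomial `∑ β_i T (T-1) ⋯ (T-i+1)` is `β_n ∏ (T + a_j)`. -/
def ExpInf {n : ℕ} (b : Fin (n + 1) → ℤ[X]) (a : Fin n → ℚ) : Prop :=
  (∀ i, (b i * X ^ (n - i)).natDegree ≤ (b (Fin.last n)).natDegree) ∧
    ∑ i : Fin (n + 1), C (((b i * X ^ (n - i)).coeff (b (Fin.last n)).natDegree : ℤ) : ℚ) *
        descPochhammer ℚ i =
      C (((b (Fin.last n)).leadingCoeff : ℤ) : ℚ) * ∏ j, (X + C (a j))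

end Pool.Agent.H112Z.PCurv
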