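import Mathlib

/-!
# Reduction of finitely many algebraic numbers modulo large primes
-/

namespace Pool.Agent.H112Z.PCurv

open Polynomial Finset

abbrev Kb := AlgebraicClosure ℚ

/-- algebraic numbers which become integral after multiplication by a power of `N` -/
def RN (N : ℕ) : Subring Kb where
  carrier := {r | ∃ m : ℕ, IsIntegral ℤ ((N : Kb) ^ m * r)}
  mul_mem' := by
    rintro a b ⟨m, hm⟩ ⟨l, hl⟩
    refine ⟨m + l, ?_⟩
    have := hm.mul hl
    have e : (N : Kb) ^ (m + l) * (a * b) = (N : Kb) ^ m * a * ((N : Kb) ^ l * b) := by ring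
    rw [e]; exact this
  one_mem' := ⟨0, by simpa using isIntegral_one⟩
  add_mem' := by
    rintro a b ⟨m, hm⟩ ⟨l, hl⟩
    refine ⟨m + l, ?_⟩
    have hN : IsIntegral ℤ (N : Kb) := by
      have := isIntegral_algebraMap (R := ℤ) (A := Kb) (x := (N : ℤ))
      simpa using this
    have := ((hN.pow l).mul hm).add ((hN.pow m).mul hl)
    have e : (N : Kb) ^ (m + l) * (a + b) =
        (N : Kb) ^ l * ((N : Kb) ^ m * a) + (N : Kb) ^ m * ((N : Kb) ^ l * b) := by ring
    rw [e]; exact this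
  zero_mem' := ⟨0, by simpa using isIntegral_zero⟩
  neg_mem' := by
    rintro a ⟨m, hm⟩
    exact ⟨m, by simpa using hm.neg⟩

theorem exists_mul_integral (t : Kb) : ∃ N : ℕ, 0 < N ∧ IsIntegral ℤ ((N : Kb) * t) := by
  have h1 : IsAlgebraic ℚ t := (AlgebraicClosure.isAlgebraic ℚ).isAlgebraic t
  have h2 : IsAlgebraic ℤ t := (IsFractionRing.isAlgebraic_iff ℤ ℚ Kb).mpr h1
  obtain ⟨y, hy, hi⟩ := h2.exists_integral_multiple
  refine ⟨y.natAbs, Int.natAbs_pos.mpr hy, ?_⟩
  rcases Int.natAbs_eq y with h | h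
  · have : ((y.natAbs : ℕ) : Kb) * t = y • t := by
      rw [zsmul_eq_mul]; conv_rhs => rw [h]
      simp
    rw [this]; exact hi
  · have : ((y.natAbs : ℕ) : Kb) * t = -(y • t) := by
      rw [zsmul_eq_mul]; conv_rhs => rw [h]
      simp
    rw [this]; exact hi.neg

theorem reduction (T : Finset Kb) : ∃ (R : Subring Kb) (N : ℕ), (∀ t ∈ T, t ∈ R) ∧
    ∀ p : ℕ, p.Prime → N < p → ∃ (k : Type) (_ : Field k) (_ : IsAlgClosed k) (_ : CharP k p),
      Nonempty (R →+* k) := by
  choose f hf0 hf using exists_mul_integral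
  have hN : 0 < ∏ t ∈ T, f t := prod_pos fun t _ => hf0 t
  refine ⟨RN (∏ t ∈ T, f t), ∏ t ∈ T, f t, fun t ht => ⟨1, ?_⟩, fun p hp hlt => ?_⟩
  · obtain ⟨g, hg⟩ := dvd_prod_of_mem f ht
    have hG : IsIntegral ℤ (g : Kb) := by
      have := isIntegral_algebraMap (R := ℤ) (A := Kb) (x := (g : ℤ))
      simpa using this
    have := hG.mul (hf t)
    have e : ((∏ t ∈ T, f t : ℕ) : Kb) ^ 1 * t = (g : Kb) * ((f t : Kb) * t) := by
      rw [hg]; push_cast; ring
    rw [e]; exact this
  · set N := ∏ t ∈ T, f t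
    have hnu : ¬ IsUnit ((p : ℕ) : RN N) := by
      intro hu
      obtain ⟨r, hr⟩ := hu.exists_right_inv
      obtain ⟨m, hm⟩ := r.2
      have h1 : (p : Kb) * (r : Kb) = 1 := by
        have := congrArg (fun x : RN N => (x : Kb)) hr
        simpa using this
      have hp0 : (p : Kb) ≠ 0 := by exact_mod_cast hp.ne_zero
      have h2 : (N : Kb) ^ m * (r : Kb) = algebraMap ℚ Kb ((N : ℚ) ^ m / p) := by
        have : (r : Kb) = (p : Kb)⁻¹ := eq_inv_of_mul_eq_one_right h1
        rw [this]; simp [div_eq_mul_inv]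
      rw [h2, isIntegral_algebraMap_iff (algebraMap ℚ Kb).injective] at hm
      obtain ⟨z, hz⟩ := IsIntegrallyClosed.isIntegral_iff.mp hm
      have hp1 : (p : ℚ) ≠ 0 := by exact_mod_cast hp.ne_zero
      have h3 : (p : ℤ) * z = (N : ℤ) ^ m := by
        have : (p : ℚ) * (z : ℚ) = (N : ℚ) ^ m := by
          have e : (z : ℚ) = (N : ℚ) ^ m / p := by simpa using hz
          rw [e]; field_simp
        exact_mod_cast this
      have h4 : p ∣ N ^ m := by
        have : (p : ℤ) ∣ ((N ^ m : ℕ) : ℤ) := ⟨z, by push_cast; exact h3.symm⟩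
        exact_mod_cast this
      have h5 := Nat.le_of_dvd hN (hp.dvd_of_dvd_pow h4)
      omega
    obtain ⟨M, hM, hle⟩ := Ideal.exists_le_maximal (Ideal.span {((p : ℕ) : RN N)})
      (by rw [Ne, Ideal.span_singleton_eq_top]; exact hnu)
    let _ : Field (RN N ⧸ M) := Ideal.Quotient.field M
    let k := AlgebraicClosure (RN N ⧸ M)
    let ψ : RN N →+* k := (algebraMap (RN N ⧸ M) k).comp (Ideal.Quotient.mk M)
    have hpk : (p : k) = 0 := by
      have h1 : Ideal.Quotient.mk M ((p : ℕ) : RN N) = 0 :=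
        Ideal.Quotient.eq_zero_iff_mem.mpr (hle (Ideal.mem_span_singleton_self _))
      have h2 : ψ (p : ℕ) = 0 := by
        simp only [ψ, RingHom.comp_apply, h1, map_zero]
      rwa [map_natCast] at h2
    have hch : CharP k p := (CharP.charP_iff_prime_eq_zero hp).mpr hpk
    exact ⟨k, inferInstance, inferInstance, hch, ⟨ψ⟩⟩

theorem transfer_indicial {n : ℕ} {k : Type} [Field k] (R : Subring Kb) (ψ : R →+* k)
    (c : Fin (n + 1) → R) (c0 : R) (e : Fin n → R)
    (h : ∑ i : Fin (n + 1), C (c i : Kb) * descPochhammer Kb i =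
      C (c0 : Kb) * ∏ j, (X - C (e j : Kb))) (x : k) :
    ∑ i : Fin (n + 1), ψ (c i) * (descPochhammer k i).eval x = ψ c0 * ∏ j, (x - ψ (e j)) := by
  have h1 : ∑ i : Fin (n + 1), C (c i) * descPochhammer R i = C c0 * ∏ j, (X - C (e j)) := by
    apply Polynomial.map_injective R.subtype Subtype.val_injective
    simpa [Polynomial.map_sum, Polynomial.map_prod, descPochhammer_map] using h
  have h2 := congrArg (fun q => (q.map ψ).eval x) h1
  simpa [Polynomial.map_sum, Polynomial.map_prod, descPochhammer_map, eval_finsetSum,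
    eval_prod] using h2

theorem lift_poly (R : Subring Kb) (g : Kb[X]) (h : ∀ t ∈ g.coeffs, t ∈ R) :
    ∃ g' : R[X], g'.map R.subtype = g :=
  ⟨g.toSubring R (fun t ht => h t ht), map_toSubring _ _ _⟩

end Pool.Agent.H112Z.PCurv
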