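import Pool.Agent.H112Z.PCurvPoly
import Pool.Agent.H112Z.PCurvRed

/-!
# The exponent inequalities
-/

namespace Pool.Agent.H112Z.PCurv

open Polynomial Finset Filter

theorem dvd_prod_roots {K : Type*} [Field K] [IsAlgClosed K] (bn : K[X]) (hbn0 : bn ≠ 0)
    (S : Finset K) (hS : ∀ t, IsRoot bn t → t ∈ S) :
    bn ∣ ∏ s : S, (X - C (s : K)) ^ bn.natDegree := by
  classical
  have hsp : bn.Splits := IsAlgClosed.splits bn
  have hne : ∏ s : S, (X - C (s : K)) ^ bn.natDegree ≠ 0 :=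
    prod_ne_zero_iff.mpr fun s _ => pow_ne_zero _ (X_sub_C_ne_zero _)
  apply hsp.dvd_of_roots_le_roots hbn0
  rw [Multiset.le_iff_count]
  intro t
  rw [count_roots, count_roots]
  by_cases ht : IsRoot bn t
  · have h1 : rootMultiplicity t bn ≤ bn.natDegree := by
      have := natDegree_le_of_dvd (pow_rootMultiplicity_dvd bn t) hbn0
      simpa using this
    refine h1.trans ?_
    rw [le_rootMultiplicity_iff hne]
    have := dvd_prod_of_mem (fun s : S => (X - C (s : K)) ^ bn.natDegree)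
      (mem_univ (⟨t, hS t ht⟩ : S))
    exact this
  · rw [rootMultiplicity_eq_zero ht]; exact Nat.zero_le _

theorem at_prime {n : ℕ} (b : Fin (n + 1) → ℤ[X]) (hb : b (Fin.last n) ≠ 0)
    (S : Finset Kb) (hS : ∀ s : Kb, aeval s (b (Fin.last n)) = 0 → s ∈ S)
    (e : Kb → Fin n → ℚ) (he : ∀ s ∈ S, ExpAt b s (e s)) (a : Fin n → ℚ) (ha : ExpInf b a)
    (D : ℕ) (hD : 0 < D) :
    ∃ N : ℕ, ∀ (p : ℕ) [Fact p.Prime], N < p → FullModP b p →
      ∀ (γ : S → ℕ) (v : S → Fin n → ℕ) (d : Fin n → ℤ),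
        (∀ s j, γ s ≤ v s j ∧ v s j < γ s + p) → (∀ j, d j < (∑ s, γ s : ℕ) + p) →
        (∀ (s : S) j, ∃ m : ℤ, e s j * D = m ∧ (p : ℤ) ∣ D * v s j - m) →
        (∀ j, ∃ m : ℤ, -a j * D = m ∧ (p : ℤ) ∣ D * d j - m) →
        ∑ j, d j + (Fintype.card S * ∑ i : Fin n, (i : ℕ) : ℕ) ≤
          (∑ s, ∑ j, v s j + ∑ i : Fin n, (i : ℕ) : ℕ) := by
  classical
  choose μ h hh1 hh2 hh3 using fun s : S => he s.1 s.2
  set bn : Kb[X] := (b (Fin.last n)).map (Int.castRingHom Kb) with hbn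
  have hbn0 : bn ≠ 0 := (Polynomial.map_ne_zero_iff (Int.castRingHom Kb).injective_int).mpr hb
  have hdvd : bn ∣ ∏ s : S, (X - C (s : Kb)) ^ bn.natDegree :=
    dvd_prod_roots bn hbn0 S (fun t ht => hS t (by
      rw [aeval_def, eval₂_eq_eval_map]; exact ht))
  obtain ⟨g, hg⟩ := hdvd
  let lc : ℤ := (b (Fin.last n)).leadingCoeff
  have hlc : lc ≠ 0 := leadingCoeff_ne_zero.mpr hb
  let T : Finset Kb := S ∪ (S ×ˢ S).image (fun q => (q.1 - q.2)⁻¹) ∪
    (univ : Finset (S × Fin (n + 1))).biUnion (fun q => (h q.1 q.2).coeffs) ∪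
    univ.image (fun s : S => ((h s (Fin.last n)).eval (s : Kb))⁻¹) ∪ g.coeffs ∪
    univ.image (fun q : S × Fin n => (e q.1 q.2 : Kb)) ∪ univ.image (fun j => ((-a j : ℚ) : Kb))
  obtain ⟨R, N, hR, hred⟩ := reduction T
  refine ⟨N + n + D + lc.natAbs, fun p _ hp hfull γ v d hv hd hve hda => ?_⟩
  have hpp : p.Prime := Fact.out
  obtain ⟨k, _, _, _, ⟨ψ⟩⟩ := hred p hpp (by omega)
  have hSR : ∀ s : S, (s : Kb) ∈ R := fun s => hR _ (by simp [T])
  let sR : S → R := fun s => ⟨s, hSR s⟩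
  let σ : S → k := fun s => ψ (sR s)
  have hunit : ∀ x : R, (x : Kb) ≠ 0 → (x : Kb)⁻¹ ∈ R → ψ x ≠ 0 := by
    intro x hx hi h0
    have : x * ⟨_, hi⟩ = 1 := Subtype.ext (mul_inv_cancel₀ hx)
    have h2 := congrArg ψ this
    rw [map_mul, h0, zero_mul, map_one] at h2
    exact zero_ne_one h2
  have hσ : Function.Injective σ := by
    intro s t hst
    by_contra hne
    have h1 : ((sR s - sR t : R) : Kb) ≠ 0 := by
      simp only [sR, AddSubgroupClass.coe_sub, sub_ne_zero]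
      exact fun h => hne (Subtype.ext h)
    apply hunit _ h1 (hR _ (by
      simp only [T, mem_union, mem_image]
      exact Or.inl (Or.inl (Or.inl (Or.inl (Or.inl (Or.inr
        ⟨(s, t), mem_product.mpr ⟨s.2, t.2⟩, rfl⟩)))))))
    rw [map_sub]; exact sub_eq_zero.mpr hst
  have hcast : ∀ m : ℕ, 0 < m → m < p → (m : k) ≠ 0 := fun m h1 h2 h3 => by
    have := Nat.le_of_dvd h1 ((CharP.cast_eq_zero_iff k p m).mp h3); omega
  have hDk : (D : k) ≠ 0 := hcast D hD (by omega)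
  have hlck : (lc : k) ≠ 0 := by
    intro h0
    have h1 := (CharP.intCast_eq_zero_iff k p lc).mp h0
    have h2 := Nat.le_of_dvd (Int.natAbs_pos.mpr hlc) (Int.natCast_dvd.mp h1)
    omega
  let B : Fin (n + 1) → k[X] := fun i => (b i).map (Int.castRingHom k)
  have hBR : ∀ i, ((b i).map (Int.castRingHom R)).map ψ = B i := by
    intro i
    simp only [B, Polynomial.map_map]
    congr 1
    exact RingHom.ext_int _ _
  have hBK : ∀ i, ((b i).map (Int.castRingHom R)).map R.subtype =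
      (b i).map (Int.castRingHom Kb) := by
    intro i
    simp only [Polynomial.map_map]
    congr 1
  have hB0 : B (Fin.last n) ≠ 0 := by
    intro h0
    have := congrArg (fun q => coeff q (b (Fin.last n)).natDegree) h0
    simp only [B, coeff_map, coeff_zero] at this
    exact hlck this
  obtain ⟨z, hz, hW⟩ := full_to_poly b p k hB0 hfull
  have hrat : ∀ (x : ℚ) (hx : (x : Kb) ∈ R) (w : ℤ),
      (∃ m : ℤ, x * D = m ∧ (p : ℤ) ∣ D * w - m) → ψ ⟨x, hx⟩ = (w : k) := by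
    rintro x hx w ⟨m, h1, h2⟩
    have h3 : (⟨x, hx⟩ : R) * (D : R) = (m : R) := by
      apply Subtype.ext
      have := congrArg (fun q : ℚ => (q : Kb)) h1
      simpa using this
    have h4 := congrArg ψ h3
    rw [map_mul, map_natCast, map_intCast] at h4
    have h5 := (CharP.intCast_eq_zero_iff k p _).mpr h2
    push_cast at h5
    apply mul_right_cancel₀ hDk
    rw [h4]; linear_combination -h5
  refine charp_main' p (by omega) B σ hσ ?_ γ v hv ?_ d hd ?_ z hz hW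
  · intro t ht h0
    obtain ⟨g', hg'⟩ := lift_poly R g (fun t ht => hR _ (by simp [T, ht]))
    have h1 : ∏ s : S, (X - C (sR s)) ^ bn.natDegree =
        (b (Fin.last n)).map (Int.castRingHom R) * g' := by
      apply Polynomial.map_injective R.subtype Subtype.val_injective
      rw [Polynomial.map_mul, hBK, hg', ← hbn, ← hg]
      simp [Polynomial.map_prod, sR]
    have h2 := congrArg (fun q => (q.map ψ).eval t) h1
    simp only [Polynomial.map_mul, hBR, eval_mul, h0, zero_mul, Polynomial.map_prod,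
      Polynomial.map_pow, Polynomial.map_sub, map_X, map_C, eval_prod, eval_pow, eval_sub, eval_X,
      eval_C] at h2
    obtain ⟨s, -, hs⟩ := prod_eq_zero_iff.mp h2
    exact ht s (sub_eq_zero.mp (pow_eq_zero_iff'.mp hs).1).symm
  · intro s y hy hL
    choose h' hh' using fun i => lift_poly R (h s i) (fun t ht => hR _ (by
      simp only [T, mem_union, mem_biUnion]
      exact Or.inl (Or.inl (Or.inl (Or.inl (Or.inr ⟨(s, i), mem_univ _, ht⟩))))))
    have h1 : ∀ i, B i * (X - C (σ s)) ^ (n - i) = (X - C (σ s)) ^ μ s * (h' i).map ψ := by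
      intro i
      have h2 : (b i).map (Int.castRingHom R) * (X - C (sR s)) ^ (n - i) =
          (X - C (sR s)) ^ μ s * h' i := by
        apply Polynomial.map_injective R.subtype Subtype.val_injective
        rw [Polynomial.map_mul, Polynomial.map_mul, hBK, hh']
        simpa [sR] using hh1 s i
      have h3 := congrArg (fun q => q.map ψ) h2
      simpa [Polynomial.map_mul, hBR, σ] using h3
    have h2 := indicial_local B (σ s) (μ s) _ h1 y hy hL
    have hev : ∀ i, (((h' i).eval (sR s) : R) : Kb) = (h s i).eval (s : Kb) := by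
      intro i
      rw [← hh', eval_map]
      exact (eval₂_at_apply R.subtype (sR s)).symm
    have heR : ∀ j, ((e s j : ℚ) : Kb) ∈ R := fun j => hR _ (by
      simp only [T, mem_union, mem_image]
      exact Or.inl (Or.inr ⟨(s, j), mem_univ _, rfl⟩))
    have h3 := transfer_indicial R ψ (fun i => (h' i).eval (sR s))
      ((h' (Fin.last n)).eval (sR s)) (fun j => ⟨_, heR j⟩) (by
        simp only [hev]; exact hh3 s) (rootMultiplicity (σ s) y : k)
    have h4 : ∀ i, ψ ((h' i).eval (sR s)) = ((h' i).map ψ).eval (σ s) := by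
      intro i
      rw [eval_map]
      exact (eval₂_at_apply ψ (sR s)).symm
    simp only [← h4] at h2
    rw [h2] at h3
    have h5 : ψ ((h' (Fin.last n)).eval (sR s)) ≠ 0 := by
      apply hunit
      · rw [hev]; exact hh2 s
      · rw [hev]
        apply hR
        simp only [T, mem_union, mem_image]
        exact Or.inl (Or.inl (Or.inl (Or.inr ⟨s, mem_univ _, rfl⟩)))
    obtain ⟨j, -, hj⟩ := prod_eq_zero_iff.mp ((mul_eq_zero.mp h3.symm).resolve_left h5)
    refine ⟨j, ?_⟩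
    rw [sub_eq_zero.mp hj, hrat _ _ (v s j : ℤ) (hve s j)]; simp
  · intro y hy hL
    set ν := (b (Fin.last n)).natDegree
    have h1 : ∀ i, B i * X ^ (n - i) = (b i * X ^ (n - i)).map (Int.castRingHom k) := by
      intro i; simp [B]
    have h2 := indicial_inf B ν (fun i => by
      rw [h1]; exact natDegree_map_le.trans (ha.1 i)) y hy hL
    have haR : ∀ j, ((-a j : ℚ) : Kb) ∈ R := fun j => hR _ (by
      simp only [T, mem_union, mem_image]
      exact Or.inr ⟨j, mem_univ _, rfl⟩)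
    have h3 := transfer_indicial R ψ (fun i => (((b i * X ^ (n - i)).coeff ν : ℤ) : R))
      (lc : R) (fun j => ⟨_, haR j⟩) (by
        have := congrArg (fun q => q.map (algebraMap ℚ Kb)) ha.2
        simpa [Polynomial.map_sum, Polynomial.map_prod, descPochhammer_map, lc, ν] using this)
      (y.natDegree : k)
    simp only [map_intCast] at h3
    simp only [h1, coeff_map, eq_intCast] at h2
    rw [h2] at h3
    obtain ⟨j, -, hj⟩ := prod_eq_zero_iff.mp ((mul_eq_zero.mp h3.symm).resolve_left hlck)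
    exact ⟨j, by rw [sub_eq_zero.mp hj, hrat _ _ (d j) (hda j)]⟩

theorem ev_lt (A ε : ℝ) (hε : 0 < ε) : ∀ᶠ p : ℕ in atTop, A < p * ε :=
  (tendsto_natCast_atTop_atTop.atTop_mul_const hε).eventually_gt_atTop A

theorem rep_int (x : ℚ) (D l p q : ℕ) (hq : p * l + 1 = D * q) (m : ℤ) (hm : x * D = m)
    (g : ℝ) : ∃ w : ℤ, (w : ℝ) = p * g + x + p * Int.fract ((l : ℝ) * x - g) ∧
      (p : ℤ) ∣ D * w - m := by
  refine ⟨m * q - p * ⌊(l : ℝ) * x - g⌋, ?_, ?_⟩
  · have h1 : (m : ℝ) = x * D := by exact_mod_cast hm.symm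
    have h2 : (p : ℝ) * l + 1 = D * q := by exact_mod_cast hq
    rw [Int.fract]
    push_cast
    rw [h1]
    linear_combination (-(x : ℝ)) * h2
  · have h2 : (p : ℤ) * l + 1 = D * q := by exact_mod_cast hq
    refine ⟨m * l - D * ⌊(l : ℝ) * x - g⌋, ?_⟩
    linear_combination (-m) * h2

theorem main {n : ℕ} (b : Fin (n + 1) → ℤ[X]) (hb : b (Fin.last n) ≠ 0)
    (S : Finset Kb) (hS : ∀ s : Kb, aeval s (b (Fin.last n)) = 0 → s ∈ S)
    (e : Kb → Fin n → ℚ) (he : ∀ s ∈ S, ExpAt b s (e s)) (a : Fin n → ℚ) (ha : ExpInf b a)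
    (hfull : ∃ N : ℕ, ∀ p : ℕ, N < p → ∀ _ : Fact p.Prime, FullModP b p)
    (l : ℕ) (hl1 : ∀ s ∈ S, ∀ j, l.Coprime (e s j).den) (hl2 : ∀ j, l.Coprime (a j).den)
    (c : Kb → ℝ) :
    ∑ j, Int.fract (-((l : ℝ) * a j) + ∑ s ∈ S, c s) ≤
      ∑ s ∈ S, ∑ j, Int.fract ((l : ℝ) * e s j + c s) := by
  classical
  by_contra hcon
  push Not at hcon
  set D : ℕ := (∏ q : S × Fin n, (e q.1 q.2).den) * ∏ j, (a j).den with hDdef
  have hD : 0 < D := Nat.mul_pos (prod_pos fun q _ => (e q.1 q.2).den_pos)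
    (prod_pos fun j _ => (a j).den_pos)
  have hcop : l.Coprime D := Nat.Coprime.mul_right
    (Nat.Coprime.prod_right fun q _ => hl1 _ q.1.2 _) (Nat.Coprime.prod_right fun j _ => hl2 j)
  have hint : ∀ x : ℚ, x.den ∣ D → ∃ m : ℤ, x * D = m := by
    rintro x ⟨r, hr⟩
    refine ⟨x.num * r, ?_⟩
    rw [hr]; push_cast
    rw [← mul_assoc, Rat.mul_den_eq_num]
  have hDe : ∀ (s : S) j, ∃ m : ℤ, e s j * D = m := fun s j => hint _
    (Dvd.dvd.mul_right (dvd_prod_of_mem (fun q : S × Fin n => (e q.1 q.2).den)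
      (mem_univ (s, j))) _)
  have hDa : ∀ j, ∃ m : ℤ, -a j * D = m := fun j => hint _ (by
    rw [Rat.neg_den]
    exact Dvd.dvd.mul_left (dvd_prod_of_mem (fun j => (a j).den) (mem_univ j)) _)
  obtain ⟨N1, hN1⟩ := at_prime b hb S hS e he a ha D hD
  obtain ⟨N2, hN2⟩ := hfull
  -- shifts
  let g : S → ℝ := fun s => 1 + Int.fract (-c s)
  have hg1 : ∀ s, 1 ≤ g s := fun s => by
    have := Int.fract_nonneg (-c s); simp only [g]; linarith
  have hgc : ∀ s, ∃ z : ℤ, g s = z - c s := fun s =>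
    ⟨1 - ⌊-c s⌋, by simp only [g, Int.fract]; push_cast; ring⟩
  choose z hz using hgc
  let f : S → Fin n → ℝ := fun s j => Int.fract ((l : ℝ) * e s j - g s)
  have hf : ∀ s j, f s j = Int.fract ((l : ℝ) * e s j + c s) := by
    intro s j
    simp only [f, hz]
    rw [show (l : ℝ) * e s j - (z s - c s) = (l : ℝ) * e s j + c s - z s by ring,
      Int.fract_sub_intCast]
  let F : Fin n → ℝ := fun j => Int.fract ((l : ℝ) * ((-a j : ℚ) : ℝ) - ∑ s, g s)
  have hF : ∀ j, F j = Int.fract (-((l : ℝ) * a j) + ∑ s ∈ S, c s) := by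
    intro j
    simp only [F, hz, sum_sub_distrib]
    rw [← sum_coe_sort S c, ← Int.cast_sum]
    rw [show (l : ℝ) * ((-a j : ℚ) : ℝ) - (((∑ s, z s : ℤ) : ℝ) - ∑ s : S, c s) =
      -((l : ℝ) * a j) + ∑ s : S, c s - ((∑ s, z s : ℤ) : ℝ) by push_cast; ring,
      Int.fract_sub_intCast]
  have hgap : 0 < ∑ j, F j - ∑ s, ∑ j, f s j := by
    simp only [hF, hf]
    rw [sum_coe_sort S (fun s => ∑ j, Int.fract ((l : ℝ) * e s j + c s))]
    linarith
  obtain ⟨B, hB⟩ : ∃ B : ℕ, ∀ (s : S) j, |(e s j : ℝ)| ≤ B := by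
    obtain ⟨B, hB⟩ := exists_nat_ge (∑ q : S × Fin n, |(e q.1 q.2 : ℝ)|)
    exact ⟨B, fun s j => (single_le_sum (f := fun q : S × Fin n => |(e q.1 q.2 : ℝ)|)
      (fun _ _ => abs_nonneg _) (mem_univ (s, j))).trans hB⟩
  set Cn : ℕ := ∑ i : Fin n, (i : ℕ)
  have E1 : ∀ᶠ p : ℕ in atTop, ∀ q : S × Fin n, (2 * B + 1 : ℝ) < p * (1 - f q.1 q.2) :=
    eventually_all.mpr fun q => ev_lt _ _ (by
      have := Int.fract_lt_one ((l : ℝ) * e q.1 q.2 - g q.1); simp only [f]; linarith)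
  have E2 : ∀ᶠ p : ℕ in atTop, ∀ j,
      ((-a j : ℚ) : ℝ) + Fintype.card S * (B + 1 : ℝ) < p * (1 - F j) :=
    eventually_all.mpr fun j => ev_lt _ _ (by
      have := Int.fract_lt_one ((l : ℝ) * ((-a j : ℚ) : ℝ) - ∑ s, g s); simp only [F]; linarith)
  have E3 := ev_lt ((∑ s : S, ∑ j, (e s j : ℝ)) + Cn - ∑ j, ((-a j : ℚ) : ℝ)) _ hgap
  obtain ⟨N3, hN3⟩ := eventually_atTop.mp (E1.and (E2.and E3))
  have : NeZero D := ⟨hD.ne'⟩
  let u := ZMod.unitOfCoprime l hcop
  obtain ⟨p, hp, hpp, hpu⟩ := Nat.forall_exists_prime_gt_and_eq_mod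
    (a := ((-u⁻¹ : (ZMod D)ˣ) : ZMod D)) (Units.isUnit _) (N1 + N2 + N3 + B)
  have hdvd : D ∣ p * l + 1 := by
    rw [← ZMod.natCast_eq_zero_iff]
    push_cast
    rw [hpu, ← ZMod.coe_unitOfCoprime l hcop, Units.val_neg, neg_mul]
    change -(((u⁻¹ : (ZMod D)ˣ) : ZMod D) * u) + 1 = 0
    rw [Units.inv_mul, neg_add_cancel]
  obtain ⟨q, hq⟩ := hdvd
  have : Fact p.Prime := ⟨hpp⟩
  obtain ⟨H1, H2, H3⟩ := hN3 p (by omega)
  choose m hm using hDe
  choose m' hm' using hDa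
  choose w hw1 hw2 using fun (s : S) j => rep_int (e s j) D l p q hq _ (hm s j) (g s)
  choose d hd1 hd2 using fun j => rep_int (-a j) D l p q hq _ (hm' j) (∑ s, g s)
  have hp0 : (0 : ℝ) ≤ p := by positivity
  have hpB : (B : ℝ) ≤ p := by exact_mod_cast (by omega : B ≤ p)
  have hγ : ∀ s : S, ∃ γ : ℕ, (γ : ℝ) ≤ p * g s - B ∧ p * g s - B - 1 ≤ γ := by
    intro s
    have h1 : (0 : ℝ) ≤ p * g s - B := by nlinarith [hg1 s]
    exact ⟨⌊p * g s - B⌋₊, Nat.floor_le h1, by linarith [Nat.lt_floor_add_one (p * g s - B)]⟩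
  choose γ hγ1 hγ2 using hγ
  have hwin : ∀ s j, (γ s : ℤ) ≤ w s j ∧ w s j < γ s + p := by
    intro s j
    have h1 := hw1 s j
    have h2 := abs_le.mp (hB s j)
    have h3 := H1 (s, j)
    have h4 : 0 ≤ (p : ℝ) * f s j := mul_nonneg hp0 (Int.fract_nonneg _)
    have h5 := hγ1 s
    have h6 := hγ2 s
    change (w s j : ℝ) = p * g s + e s j + p * f s j at h1
    constructor
    · have : ((γ s : ℤ) : ℝ) ≤ w s j := by push_cast; linarith
      exact_mod_cast this
    · have : (w s j : ℝ) < ((γ s + p : ℤ) : ℝ) := by push_cast; nlinarith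
      exact_mod_cast this
  have hw0 : ∀ s j, ((w s j).toNat : ℤ) = w s j := fun s j =>
    Int.toNat_of_nonneg ((Int.natCast_nonneg _).trans (hwin s j).1)
  have key := hN1 p (by omega) (hN2 p (by omega) inferInstance) γ (fun s j => (w s j).toNat) d
    (fun s j => by have := hwin s j; have := hw0 s j; constructor <;> omega)
    (fun j => by
      have h1 := hd1 j
      change (d j : ℝ) = p * (∑ s, g s) + ((-a j : ℚ) : ℝ) + p * F j at h1
      have h2 := H2 j
      have h3 : ∑ s, (p * g s - B - 1) ≤ ∑ s, (γ s : ℝ) := sum_le_sum fun s _ => hγ2 s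
      simp only [sum_sub_distrib, sum_const, card_univ, nsmul_eq_mul, ← mul_sum, mul_one] at h3
      have : (d j : ℝ) < (((∑ s, γ s : ℕ) + p : ℤ) : ℝ) := by push_cast; nlinarith
      exact_mod_cast this)
    (fun s j => ⟨m s j, hm s j, by rw [hw0]; exact hw2 s j⟩)
    (fun j => ⟨m' j, hm' j, hd2 j⟩)
  have key2 : ∑ j, (d j : ℝ) ≤ ∑ s, ∑ j, (w s j : ℝ) + Cn := by
    have h1 : ∑ j, d j ≤ ∑ s, ∑ j, w s j + (Cn : ℤ) := by
      have h2 : ∑ s, ∑ j, w s j = ((∑ s, ∑ j, (w s j).toNat : ℕ) : ℤ) := by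
        rw [Nat.cast_sum]
        refine sum_congr rfl fun s _ => ?_
        rw [Nat.cast_sum]
        exact sum_congr rfl fun j _ => (hw0 s j).symm
      rw [h2]
      omega
    exact_mod_cast h1
  have e1 : ∑ j, (d j : ℝ) = n * (p * ∑ s, g s) + ∑ j, ((-a j : ℚ) : ℝ) + p * ∑ j, F j := by
    simp only [hd1, sum_add_distrib, sum_const, card_univ, Fintype.card_fin, nsmul_eq_mul,
      mul_sum, F]
  have e2 : ∑ s, ∑ j, (w s j : ℝ) =
      n * (p * ∑ s, g s) + ∑ s : S, ∑ j, (e s j : ℝ) + p * ∑ s, ∑ j, f s j := by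
    simp only [hw1, sum_add_distrib, sum_const, card_univ, Fintype.card_fin, nsmul_eq_mul,
      mul_sum, f]
  rw [e1, e2] at key2
  nlinarith

end Pool.Agent.H112Z.PCurv
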