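import Pool.Agent.H112Z.WronBasic

/-!
# The degree inequality in characteristic `p`
-/

namespace Pool.Agent.H112Z.PCurv

open Polynomial Finset

variable {k : Type*} [Field k] {n : ℕ}

def Good (b : Fin (n + 1) → k[X]) (P : k[X]) (y : Fin n → k[X]) : Prop :=
  (∀ j, Lop b (y j) = 0) ∧ (∀ j, P ∣ y j) ∧ W y ≠ 0

theorem Good.update_sub {b : Fin (n + 1) → k[X]} {P : k[X]} {y : Fin n → k[X]} (h : Good b P y)
    {j l : Fin n} (hjl : j ≠ l) (c : k[X]) (hc : derivative c = 0) :
    Good b P (Function.update y j (y j - c * y l)) := by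
  refine ⟨fun m => ?_, fun m => ?_, by rw [W_update_sub y j l hjl c hc]; exact h.2.2⟩
  · by_cases hm : m = j
    · subst hm
      rw [Function.update_self, Lop_sub, Lop_const_mul _ _ _ hc, h.1, h.1]; simp
    · rw [Function.update_of_ne hm]; exact h.1 m
  · by_cases hm : m = j
    · subst hm
      rw [Function.update_self]
      exact dvd_sub (h.2.1 m) (Dvd.dvd.mul_left (h.2.1 l) c)
    · rw [Function.update_of_ne hm]; exact h.2.1 m

theorem sum_update_nat (f : k[X] → ℕ) (y : Fin n → k[X]) (j : Fin n) (z : k[X]) :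
    ∑ m, f (Function.update y j z m) + f (y j) = ∑ m, f (y m) + f z := by
  rw [← Finset.add_sum_erase _ _ (mem_univ j), ← Finset.add_sum_erase _ (fun m => f (y m))
    (mem_univ j), Function.update_self]
  have : ∑ m ∈ univ.erase j, f (Function.update y j z m) = ∑ m ∈ univ.erase j, f (y m) :=
    sum_congr rfl fun m hm => by rw [Function.update_of_ne (mem_erase.mp hm).1]
  rw [this]; ring

theorem deriv_pow_p (p : ℕ) [CharP k p] (q : k[X]) (m : ℕ) (hm : p ∣ m) :
    derivative (q ^ m) = 0 := by
  rw [derivative_pow, (CharP.cast_eq_zero_iff k p m).mpr hm]; simp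

theorem window_eq {p a b g : ℕ} (h : a ≡ b [MOD p]) (h1 : g ≤ a) (h2 : a < g + p) (h3 : g ≤ b)
    (h4 : b < g + p) : a = b := by
  rcases le_total a b with h5 | h5
  · have := (Nat.modEq_iff_dvd' h5).mp h
    rcases Nat.eq_zero_or_pos (b - a) with h6 | h6
    · omega
    · have := Nat.le_of_dvd h6 this; omega
  · have := (Nat.modEq_iff_dvd' h5).mp h.symm
    rcases Nat.eq_zero_or_pos (a - b) with h6 | h6
    · omega
    · have := Nat.le_of_dvd h6 this; omega

section Min

variable (p : ℕ) [CharP k p] {b : Fin (n + 1) → k[X]} {P : k[X]} {m : ℕ}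
  (hmin : ∀ y, Good b P y → m ≤ ∑ j, (y j).natDegree)
include hmin

include p in
theorem deg_inj {y : Fin n → k[X]} (hy : Good b P y) (hm : ∑ j, (y j).natDegree = m) :
    Function.Injective fun j => ((y j).natDegree : k) := by
  have key : ∀ j l, j ≠ l → (y l).natDegree ≤ (y j).natDegree →
      ((y j).natDegree : k) = ((y l).natDegree : k) → False := by
    intro j l hjl hle heq
    have hdvd : p ∣ (y j).natDegree - (y l).natDegree :=
      (Nat.modEq_iff_dvd' hle).mp ((CharP.natCast_eq_natCast k p).mp heq).symm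
    have hj := ne_zero_of_W y hy.2.2 j
    have hl := ne_zero_of_W y hy.2.2 l
    have hlc : (y j).leadingCoeff / (y l).leadingCoeff ≠ 0 :=
      div_ne_zero (leadingCoeff_ne_zero.mpr hj) (leadingCoeff_ne_zero.mpr hl)
    set c : k[X] := C ((y j).leadingCoeff / (y l).leadingCoeff) *
      X ^ ((y j).natDegree - (y l).natDegree) with hc
    have hc0 : derivative c = 0 := by
      rw [hc, derivative_mul, deriv_pow_p p _ _ hdvd]; simp
    have hg := hy.update_sub hjl c hc0
    have hne : y j - c * y l ≠ 0 := by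
      have := ne_zero_of_W _ hg.2.2 j
      rwa [Function.update_self] at this
    have hcne : c ≠ 0 := mul_ne_zero (C_ne_zero.mpr hlc) (pow_ne_zero _ X_ne_zero)
    have hdeg : (c * y l).natDegree = (y j).natDegree := by
      rw [natDegree_mul hcne hl, hc, natDegree_C_mul_X_pow _ _ hlc]; omega
    have hlt : (y j - c * y l).degree < (y j).degree := by
      apply degree_sub_lt_left _ hj
      · rw [leadingCoeff_mul, hc, leadingCoeff_C_mul_X_pow,
          div_mul_cancel₀ _ (leadingCoeff_ne_zero.mpr hl)]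
      · rw [degree_eq_natDegree hj, degree_eq_natDegree (mul_ne_zero hcne hl), hdeg]
    have hlt' := natDegree_lt_natDegree hne hlt
    have h1 := hmin _ hg
    have h2 := sum_update_nat natDegree y j (y j - c * y l)
    omega
  intro j l h
  by_contra hjl
  rcases le_total (y l).natDegree (y j).natDegree with h1 | h1
  · exact key j l hjl h1 h
  · exact key l j (Ne.symm hjl) h1 h.symm

theorem ord_lt (hp : 0 < p) (_hP : P ≠ 0) {y : Fin n → k[X]} (hy : Good b P y)
    (hm : ∑ j, (y j).natDegree = m) (s : k) (j : Fin n) :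
    rootMultiplicity s (y j) < rootMultiplicity s P + p := by
  by_contra hcon
  push Not at hcon
  have hj := ne_zero_of_W y hy.2.2 j
  obtain ⟨q, hq⟩ := hy.2.1 j
  have hq0 : q ≠ 0 := by rintro rfl; exact hj (by simpa using hq)
  have h1 : p ≤ rootMultiplicity s q := by
    rw [hq, rootMultiplicity_mul (by rw [← hq]; exact hj)] at hcon; omega
  obtain ⟨r, hr⟩ := (le_rootMultiplicity_iff hq0).mp h1
  have hc0 : derivative ((X - C s) ^ p : k[X]) = 0 := deriv_pow_p p _ _ dvd_rfl
  have hcne : ((X - C s) ^ p : k[X]) ≠ 0 := pow_ne_zero _ (X_sub_C_ne_zero s)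
  have e : y j = (X - C s) ^ p * (P * r) := by rw [hq, hr]; ring
  have hg : Good b P (Function.update y j (P * r)) := by
    refine ⟨fun l => ?_, fun l => ?_, ?_⟩
    · by_cases hl : l = j
      · subst hl
        rw [Function.update_self]
        have := hy.1 l
        rw [e, Lop_const_mul _ _ _ hc0] at this
        exact (mul_eq_zero.mp this).resolve_left hcne
      · rw [Function.update_of_ne hl]; exact hy.1 l
    · by_cases hl : l = j
      · subst hl; rw [Function.update_self]; exact Dvd.intro _ rfl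
      · rw [Function.update_of_ne hl]; exact hy.2.1 l
    · intro h0
      have := W_update_mul y j _ (P * r) hc0
      rw [← e, Function.update_eq_self, h0, mul_zero] at this
      exact hy.2.2 this
  have hPr : P * r ≠ 0 := by rintro h; rw [h, mul_zero] at e; exact hj e
  have h2 : (y j).natDegree = p + (P * r).natDegree := by
    rw [e, natDegree_mul hcne hPr, natDegree_pow, natDegree_X_sub_C, mul_one]
  have h3 := hmin _ hg
  have h4 := sum_update_nat natDegree y j (P * r)
  omega

theorem exists_adapted (hp : 0 < p) (hP : P ≠ 0) {y0 : Fin n → k[X]} (hy0 : Good b P y0)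
    (hm0 : ∑ j, (y0 j).natDegree = m) (s : k) :
    ∃ y, Good b P y ∧ ∑ j, (y j).natDegree = m ∧ W y = W y0 ∧
      Function.Injective fun j => rootMultiplicity s (y j) := by
  classical
  let T : Set ℕ := {t | ∃ y, Good b P y ∧ ∑ j, (y j).natDegree = m ∧ W y = W y0 ∧
    ∑ j, rootMultiplicity s (y j) = t}
  have hT : T.Nonempty := ⟨_, y0, hy0, hm0, rfl, rfl⟩
  have hB : BddAbove T := by
    refine ⟨∑ _j : Fin n, (rootMultiplicity s P + p), ?_⟩
    rintro t ⟨y, h1, h2, -, rfl⟩
    exact sum_le_sum fun j _ => (ord_lt p hmin hp hP h1 h2 s j).le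
  obtain ⟨y, hy, hm, hW, ht⟩ := Nat.sSup_mem hT hB
  refine ⟨y, hy, hm, hW, ?_⟩
  have key : ∀ j l, j ≠ l → (y l).natDegree ≤ (y j).natDegree →
      rootMultiplicity s (y j) = rootMultiplicity s (y l) → False := by
    intro j l hjl hle heq
    have hj := ne_zero_of_W y hy.2.2 j
    have hl := ne_zero_of_W y hy.2.2 l
    obtain ⟨u, hu1, hu2⟩ := exists_eq_pow_rootMultiplicity_mul_and_not_dvd (y j) hj s
    obtain ⟨w, hw1, hw2⟩ := exists_eq_pow_rootMultiplicity_mul_and_not_dvd (y l) hl s
    have hw2' : w.eval s ≠ 0 := fun h => hw2 (dvd_iff_isRoot.mpr h)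
    set c : k[X] := C (u.eval s / w.eval s) with hc
    have hc0 : derivative c = 0 := by simp [hc]
    have hg := hy.update_sub hjl c hc0
    have hne : y j - c * y l ≠ 0 := by
      have := ne_zero_of_W _ hg.2.2 j
      rwa [Function.update_self] at this
    have hdeg : (y j - c * y l).natDegree ≤ (y j).natDegree :=
      (natDegree_sub_le _ _).trans (max_le le_rfl ((natDegree_C_mul_le _ _).trans hle))
    have h1 := hmin _ hg
    have h2 := sum_update_nat natDegree y j (y j - c * y l)
    have hord : rootMultiplicity s (y j) + 1 ≤ rootMultiplicity s (y j - c * y l) := by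
      rw [le_rootMultiplicity_iff hne]
      have e : y j - c * y l = (X - C s) ^ rootMultiplicity s (y j) * (u - c * w) := by
        conv_lhs => rw [hu1, hw1, ← heq]
        ring
      rw [e, pow_succ]
      apply mul_dvd_mul_left
      rw [dvd_iff_isRoot]
      simp [hc, hw2']
    have h3 := sum_update_nat (rootMultiplicity s) y j (y j - c * y l)
    have h4 : ∑ i, rootMultiplicity s (Function.update y j (y j - c * y l) i) ≤ sSup T :=
      le_csSup hB ⟨_, hg, by omega, by rw [W_update_sub y j l hjl c hc0, hW], rfl⟩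
    omega
  intro j l h
  by_contra hjl
  rcases le_total (y l).natDegree (y j).natDegree with h1 | h1
  · exact key j l hjl h1 h
  · exact key l j (Ne.symm hjl) h1 h.symm

end Min

theorem charp_main (p : ℕ) [CharP k p] (hp : 0 < p) [IsAlgClosed k] (b : Fin (n + 1) → k[X])
    (S : Finset k) (γ : k → ℕ) (hγ : ∀ s ∉ S, γ s = 0) (v : k → Fin n → ℕ)
    (hv0 : ∀ s ∉ S, ∀ j, v s j = j) (hv1 : ∀ s j, γ s ≤ v s j ∧ v s j < γ s + p)
    (hloc : ∀ s y, y ≠ 0 → Lop b y = 0 → ∃ j, (rootMultiplicity s y : k) = (v s j : k))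
    (d : Fin n → ℤ) (hd : ∀ j, d j < (∑ s ∈ S, γ s : ℕ) + p)
    (hinf : ∀ y, y ≠ 0 → Lop b y = 0 → ∃ j, (y.natDegree : k) = (d j : k))
    (z : Fin n → k[X]) (hz : ∀ j, Lop b (z j) = 0) (hW : W z ≠ 0) :
    ∑ j, d j + (S.card * ∑ i : Fin n, (i : ℕ) : ℕ) ≤
      (∑ s ∈ S, ∑ j, v s j + ∑ i : Fin n, (i : ℕ) : ℕ) := by
  classical
  set P : k[X] := ∏ s ∈ S, (X - C s) ^ γ s with hPdef
  have hP : P ≠ 0 := prod_ne_zero_iff.mpr fun s _ => pow_ne_zero _ (X_sub_C_ne_zero s)
  have hPdeg : P.natDegree = ∑ s ∈ S, γ s := by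
    rw [hPdef, natDegree_prod _ _ (fun s _ => pow_ne_zero _ (X_sub_C_ne_zero s))]
    simp
  have hPord : ∀ s, rootMultiplicity s P = γ s := by
    intro s
    have h1 : ∀ T : Finset k, rootMultiplicity s (∏ t ∈ T, (X - C t) ^ γ t) =
        if s ∈ T then γ s else 0 := by
      intro T
      induction T using Finset.induction_on with
      | empty => simp
      | insert a T ha ih =>
        rw [prod_insert ha, rootMultiplicity_mul (mul_ne_zero (pow_ne_zero _ (X_sub_C_ne_zero a))
          (prod_ne_zero_iff.mpr fun s _ => pow_ne_zero _ (X_sub_C_ne_zero s))), ih]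
        by_cases h : s = a
        · subst h; simp [rootMultiplicity_X_sub_C_pow, ha]
        · have : rootMultiplicity s ((X - C a) ^ γ a) = 0 := by
            apply rootMultiplicity_eq_zero
            simp [IsRoot, sub_eq_zero, h]
          simp [this, h]
    rw [hPdef, h1]
    split_ifs with h
    · rfl
    · exact (hγ s h).symm
  have hex : ∃ t, ∃ y, Good b P y ∧ ∑ j, (y j).natDegree = t := by
    have hc0 : derivative (P ^ p) = 0 := deriv_pow_p p _ _ dvd_rfl
    refine ⟨_, fun j => P ^ p * z j, ⟨fun j => ?_, fun j => ?_, ?_⟩, rfl⟩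
    · rw [Lop_const_mul _ _ _ hc0, hz, mul_zero]
    · exact Dvd.dvd.mul_right (dvd_pow_self P hp.ne') _
    · have : WM (fun j => P ^ p * z j) = Matrix.of fun i j => (fun _ => P ^ p) j * WM z i j := by
        ext i j : 1
        simp [WM, iter_const_mul _ _ hc0]
      unfold W
      rw [this, Matrix.det_mul_row]
      exact mul_ne_zero (prod_ne_zero_iff.mpr fun _ _ => pow_ne_zero _ hP) hW
  obtain ⟨y0, hy0, hm0⟩ := Nat.find_spec hex
  have hmin : ∀ y, Good b P y → Nat.find hex ≤ ∑ j, (y j).natDegree :=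
    fun y hy => Nat.find_min' hex ⟨y, hy, rfl⟩
  -- local computation
  have hlocal : ∀ s, rootMultiplicity s (W y0) + ∑ i : Fin n, (i : ℕ) = ∑ j, v s j := by
    intro s
    obtain ⟨y, hy, hm, hWy, hinj⟩ := exists_adapted p hmin hp hP hy0 hm0 s
    have hne := ne_zero_of_W y hy.2.2
    have hlo : ∀ j, γ s ≤ rootMultiplicity s (y j) := fun j => by
      rw [← hPord]; exact rootMultiplicity_le_rootMultiplicity_of_dvd (hne j) (hy.2.1 j) s
    have hhi : ∀ j, rootMultiplicity s (y j) < γ s + p := fun j => by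
      rw [← hPord]; exact ord_lt p hmin hp hP hy hm s j
    have hinj' : Function.Injective fun j => (rootMultiplicity s (y j) : k) := by
      intro j l h
      apply hinj
      exact window_eq ((CharP.natCast_eq_natCast k p).mp h) (hlo j) (hhi j) (hlo l) (hhi l)
    have h1 := rootMult_W s y hy.2.2 hinj'
    choose σ hσ using fun j => hloc s (y j) (hne j) (hy.1 j)
    have h2 : ∀ j, rootMultiplicity s (y j) = v s (σ j) := fun j =>
      window_eq ((CharP.natCast_eq_natCast k p).mp (hσ j)) (hlo j) (hhi j) (hv1 s _).1 (hv1 s _).2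
    have hσinj : Function.Injective σ := by
      intro j l h
      apply hinj
      simp only [h2, h]
    have hσbij : Function.Bijective σ := Finite.injective_iff_bijective.mp hσinj
    rw [← hWy, h1]
    simp only [h2]
    exact hσbij.sum_comp (v s)
  have hdegW : (W y0).natDegree = ∑ s ∈ S, rootMultiplicity s (W y0) := by
    rw [← IsAlgClosed.card_roots_eq_natDegree, ← Multiset.toFinset_sum_count_eq]
    simp only [count_roots]
    apply sum_subset
    · intro s hs
      by_contra hS
      have h1 := hlocal s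
      simp only [hv0 s hS] at h1
      have h2 : rootMultiplicity s (W y0) = 0 := by omega
      rw [Multiset.mem_toFinset, mem_roots hy0.2.2] at hs
      exact absurd h2 ((rootMultiplicity_pos hy0.2.2).mpr hs).ne'
    · intro s _ hs
      apply rootMultiplicity_eq_zero
      rwa [Multiset.mem_toFinset, mem_roots hy0.2.2] at hs
  have hsum : (W y0).natDegree + S.card * ∑ i : Fin n, (i : ℕ) = ∑ s ∈ S, ∑ j, v s j := by
    rw [hdegW, ← smul_eq_mul, ← sum_const, ← sum_add_distrib]
    exact sum_congr rfl fun s _ => hlocal s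
  have hdinj := deg_inj p hmin hy0 hm0
  have h1 := natDegree_W y0 hy0.2.2 hdinj
  have hne := ne_zero_of_W y0 hy0.2.2
  choose σ hσ using fun j => hinf (y0 j) (hne j) (hy0.1 j)
  have hσinj : Function.Injective σ := by
    intro j l h
    apply hdinj
    simp only [hσ, h]
  have hσbij : Function.Bijective σ := Finite.injective_iff_bijective.mp hσinj
  have h2 : ∀ j, d (σ j) ≤ (y0 j).natDegree := by
    intro j
    have h3 : ∑ s ∈ S, γ s ≤ (y0 j).natDegree := by
      rw [← hPdeg]; exact natDegree_le_of_dvd (hy0.2.1 j) (hne j)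
    have h4 : (((y0 j).natDegree : ℤ) : k) = (d (σ j) : k) := by
      rw [← hσ j]; simp
    have h5 := ((CharP.intCast_eq_intCast k p).mp h4).dvd
    have h6 := hd (σ j)
    by_contra hcon
    push Not at hcon
    have h7 := Int.le_of_dvd (by omega) h5
    omega
  have h3 : ∑ j, d j ≤ ((∑ j, (y0 j).natDegree : ℕ) : ℤ) := by
    rw [← hσbij.sum_comp d]
    push_cast
    exact sum_le_sum fun j _ => h2 j
  omega

theorem charp_main' (p : ℕ) [CharP k p] (hp : n < p) [IsAlgClosed k] (b : Fin (n + 1) → k[X])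
    {ι : Type*} [Fintype ι] (σ : ι → k) (hσ : Function.Injective σ)
    (hord : ∀ t, (∀ s, σ s ≠ t) → (b (Fin.last n)).eval t ≠ 0)
    (γ : ι → ℕ) (v : ι → Fin n → ℕ) (hv1 : ∀ s j, γ s ≤ v s j ∧ v s j < γ s + p)
    (hloc : ∀ s y, y ≠ 0 → Lop b y = 0 → ∃ j, (rootMultiplicity (σ s) y : k) = (v s j : k))
    (d : Fin n → ℤ) (hd : ∀ j, d j < (∑ s, γ s : ℕ) + p)
    (hinf : ∀ y, y ≠ 0 → Lop b y = 0 → ∃ j, (y.natDegree : k) = (d j : k))
    (z : Fin n → k[X]) (hz : ∀ j, Lop b (z j) = 0) (hW : W z ≠ 0) :
    ∑ j, d j + (Fintype.card ι * ∑ i : Fin n, (i : ℕ) : ℕ) ≤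
      (∑ s, ∑ j, v s j + ∑ i : Fin n, (i : ℕ) : ℕ) := by
  classical
  have hnot : ∀ t ∉ univ.image σ, ¬ ∃ s, σ s = t := by
    intro t ht h
    obtain ⟨s, rfl⟩ := h
    exact ht (mem_image_of_mem _ (mem_univ _))
  have h := charp_main p (by omega) b (univ.image σ) (Function.extend σ γ (fun _ => 0))
    (fun t ht => by rw [Function.extend_apply' _ _ _ (hnot t ht)])
    (Function.extend σ v (fun _ j => j))
    (fun t ht j => by rw [Function.extend_apply' _ _ _ (hnot t ht)]) ?_ ?_ d ?_ hinf z hz hW
  · rw [card_image_of_injective _ hσ, sum_image (fun _ _ _ _ h => hσ h)] at h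
    simpa only [hσ.extend_apply, card_univ] using h
  · intro t j
    by_cases ht : ∃ s, σ s = t
    · obtain ⟨s, rfl⟩ := ht
      rw [hσ.extend_apply, hσ.extend_apply]; exact hv1 s j
    · rw [Function.extend_apply' _ _ _ ht, Function.extend_apply' _ _ _ ht]
      have := j.2
      constructor <;> omega
  · intro t y hy hL
    by_cases ht : ∃ s, σ s = t
    · obtain ⟨s, rfl⟩ := ht
      rw [hσ.extend_apply]; exact hloc s y hy hL
    · rw [Function.extend_apply' _ _ _ ht]
      have h1 := indicial_local b t 0 (fun i => b i * (X - C t) ^ (n - i)) (fun i => by simp)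
        y hy hL
      rw [Fin.sum_univ_castSucc, sum_eq_zero] at h1
      · simp only [Fin.val_last, Nat.sub_self, pow_zero, mul_one, zero_add] at h1
        have h2 := (mul_eq_zero.mp h1).resolve_left (hord t (fun s hs => ht ⟨s, hs⟩))
        rw [descPochhammer_eval_eq_prod_range, prod_eq_zero_iff] at h2
        obtain ⟨j, hj, h3⟩ := h2
        exact ⟨⟨j, mem_range.mp hj⟩, sub_eq_zero.mp h3⟩
      · intro i _
        have : n - (i : ℕ) ≠ 0 := by have := i.2; omega
        simp [this]
  · intro j
    rw [sum_image (fun _ _ _ _ h => hσ h)]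
    simpa only [hσ.extend_apply] using hd j

end Pool.Agent.H112Z.PCurv
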