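import Pool.Agent.H112Z.PCurvDefs
import Pool.Agent.H112Z.WronCharP

/-!
# From rational solutions to polynomial solutions with nonzero Wronskian
-/

namespace Pool.Agent.H112Z.PCurv

open Polynomial Finset

theorem iter_D_const {F : Type*} [Field F] (D : F → F)
    (hl : ∀ a b, D (a * b) = a * D b + b * D a) (c y : F) (hc : D c = 0)
    (i : ℕ) : D^[i] (c * y) = c * D^[i] y := by
  induction i with
  | zero => rfl
  | succ i ih =>
    rw [Function.iterate_succ_apply', ih, Function.iterate_succ_apply', hl, hc]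
    simp

theorem wron_ne_zero {F : Type*} [Field F] {n : ℕ} (D : F →+ F)
    (hl : ∀ a b, D (a * b) = a * D b + b * D a) (B : Fin (n + 1) → F)
    (hB : B (Fin.last n) ≠ 0) (y : Fin n → F)
    (hy : ∀ j, ∑ i : Fin (n + 1), B i * (⇑D)^[(i : ℕ)] (y j) = 0)
    (hind : ∀ c : Fin n → F, (∀ j, D (c j) = 0) → ∑ j, c j * y j = 0 → ∀ j, c j = 0) :
    (Matrix.of fun (i j : Fin n) => (⇑D)^[(i : ℕ)] (y j)).det ≠ 0 := by
  classical
  intro hdet
  obtain ⟨c0, hc0, hc0'⟩ := Matrix.exists_mulVec_eq_zero_iff.mpr hdet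
  let Sol : (Fin n → F) → Prop := fun c => ∀ i : Fin n, ∑ j, (⇑D)^[(i : ℕ)] (y j) * c j = 0
  have hex : ∃ t, ∃ c : Fin n → F, c ≠ 0 ∧ Sol c ∧ (univ.filter (fun j => c j ≠ 0)).card = t :=
    ⟨_, c0, hc0, fun i => congrFun hc0' i, rfl⟩
  obtain ⟨c1, hc1, hs1, hcard⟩ := Nat.find_spec hex
  obtain ⟨j0, hj0⟩ : ∃ j, c1 j ≠ 0 := Function.ne_iff.mp hc1
  let c : Fin n → F := fun j => c1 j / c1 j0
  have hs : Sol c := by
    intro i
    have := congrArg (· / c1 j0) (hs1 i)
    simp only [sum_div, zero_div] at this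
    simpa only [c, mul_div_assoc] using this
  have hall : ∀ i : ℕ, i ≤ n → ∑ j, (⇑D)^[i] (y j) * c j = 0 := by
    intro i hi
    rcases hi.lt_or_eq with h | h
    · exact hs ⟨i, h⟩
    · subst h
      have h1 : ∑ j, (∑ l : Fin (i + 1), B l * (⇑D)^[(l : ℕ)] (y j)) * c j = 0 :=
        sum_eq_zero fun j _ => by rw [hy j, zero_mul]
      simp only [sum_mul] at h1
      rw [sum_comm, Fin.sum_univ_castSucc, sum_eq_zero, zero_add] at h1
      · simp only [mul_assoc, ← mul_sum, Fin.val_last] at h1
        exact (mul_eq_zero.mp h1).resolve_left hB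
      · intro l _
        simp only [mul_assoc, ← mul_sum, Fin.val_castSucc]
        rw [hs l, mul_zero]
  have hs' : Sol (fun j => D (c j)) := by
    intro i
    have h1 := congrArg D (hall i i.2.le)
    rw [map_sum, map_zero] at h1
    simp only [hl, sum_add_distrib] at h1
    have h2 := hall (i + 1) i.2
    simp only [Function.iterate_succ_apply'] at h2
    have h3 : ∑ j, c j * D ((⇑D)^[(i : ℕ)] (y j)) = 0 := by
      rw [← h2]; exact sum_congr rfl fun j _ => mul_comm _ _
    rwa [h3, add_zero] at h1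
  have hcj : c j0 = 1 := div_self hj0
  have hzero : (fun j => D (c j)) = 0 := by
    by_contra hne
    have h1 := Nat.find_min' hex ⟨_, hne, hs', rfl⟩
    have h2 : (univ.filter (fun j => D (c j) ≠ 0)) ⊂ univ.filter (fun j => c1 j ≠ 0) := by
      rw [Finset.ssubset_iff_of_subset]
      · refine ⟨j0, by simpa using hj0, ?_⟩
        have h11 := hl 1 1
        simp only [mul_one, one_mul, left_eq_add] at h11
        simp [hcj, h11]
      · intro j hj
        simp only [mem_filter, mem_univ, true_and] at hj ⊢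
        intro h; apply hj; simp [c, h]
    have h3 := card_lt_card h2
    omega
  have h0 := hall 0 (Nat.zero_le _)
  have := hind c (fun j => congrFun hzero j) (by
    rw [← h0]; exact sum_congr rfl fun j _ => mul_comm _ _) j0
  rw [hcj] at this
  exact one_ne_zero this

theorem D_algebraMap (p : ℕ) [Fact p.Prime] (D : Derivation ℤ (RatFunc (ZMod p)) (RatFunc (ZMod p)))
    (hD : D (RatFunc.X : RatFunc (ZMod p)) = 1) (q : (ZMod p)[X]) :
    D (algebraMap _ (RatFunc (ZMod p)) q) = algebraMap _ (RatFunc (ZMod p)) (derivative q) := by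
  have hC : ∀ a : ZMod p, D (algebraMap (ZMod p)[X] (RatFunc (ZMod p)) (C a)) = 0 := by
    intro a
    obtain ⟨m, rfl⟩ := ZMod.natCast_zmod_surjective a
    rw [map_natCast, map_natCast, D.map_natCast]
  induction q using Polynomial.induction_on with
  | C a => rw [hC]; simp
  | add p q hp hq => simp only [map_add, hp, hq]
  | monomial m a ih =>
    rw [pow_succ, ← mul_assoc, map_mul, D.leibniz, ih, derivative_mul (f := C a * X ^ m),
      RatFunc.algebraMap_X, hD]
    simp only [smul_eq_mul, derivative_X, mul_one, map_add, map_mul, RatFunc.algebraMap_X]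
    ring

theorem W_map {k k' : Type*} [Field k] [Field k'] {n : ℕ} (φ : k →+* k') (z : Fin n → k[X]) :
    W (fun j => (z j).map φ) = (W z).map φ := by
  have := RingHom.map_det (mapRingHom φ) (WM z)
  simp only [coe_mapRingHom] at this
  unfold W
  rw [this]
  congr 1
  ext i j : 1
  simp [WM, iterate_derivative_map]

theorem Lop_map {k k' : Type*} [Field k] [Field k'] {n : ℕ} (φ : k →+* k')
    (b : Fin (n + 1) → k[X]) (z : k[X]) :
    Lop (fun i => (b i).map φ) (z.map φ) = (Lop b z).map φ := by
  unfold Lop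
  rw [Polynomial.map_sum]
  exact sum_congr rfl fun i _ => by rw [Polynomial.map_mul, iterate_derivative_map]

theorem full_to_poly {n : ℕ} (b : Fin (n + 1) → ℤ[X]) (p : ℕ) [Fact p.Prime] (k : Type*) [Field k]
    [CharP k p] (hb : (b (Fin.last n)).map (Int.castRingHom k) ≠ 0) (h : FullModP b p) :
    ∃ z : Fin n → k[X], (∀ j, Lop (fun i => (b i).map (Int.castRingHom k)) (z j) = 0) ∧
      W z ≠ 0 := by
  obtain ⟨D, hD, y, hy, hind⟩ := h
  let φ : ZMod p →+* k := ZMod.castHom (dvd_refl p) k
  let ι := algebraMap (ZMod p)[X] (RatFunc (ZMod p))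
  have hι : Function.Injective ι := IsFractionRing.injective _ _
  let b' : Fin (n + 1) → (ZMod p)[X] := fun i => (b i).map (Int.castRingHom _)
  have hbb : ∀ i, (b' i).map φ = (b i).map (Int.castRingHom k) := by
    intro i
    simp only [b', Polynomial.map_map]
    congr 1
    exact RingHom.ext_int _ _
  have hae : ∀ i, aeval (RatFunc.X : RatFunc (ZMod p)) (b i) = ι (b' i) := by
    intro i
    have : (aeval (RatFunc.X : RatFunc (ZMod p)) : ℤ[X] →ₐ[ℤ] _).toRingHom =
        ι.comp (mapRingHom (Int.castRingHom _)) := by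
      apply Polynomial.ringHom_ext
      · intro a; simp
      · simp [ι]
    exact congrArg (fun f : ℤ[X] →+* RatFunc (ZMod p) => f (b i)) this
  have hb' : b' (Fin.last n) ≠ 0 := by
    intro h0; apply hb; rw [← hbb, h0, Polynomial.map_zero]
  have hl : ∀ a b, D (a * b) = a * D b + b * D a := fun a b => D.leibniz a b
  have hdet : (Matrix.of fun (i j : Fin n) => (⇑D)^[(i : ℕ)] (y j)).det ≠ 0 :=
    wron_ne_zero (AddMonoidHom.mk' D (fun a b => map_add D a b)) hl (fun i => aeval (RatFunc.X : RatFunc (ZMod p)) (b i))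
    (by simp only [hae]; exact (map_ne_zero_iff ι hι).mpr hb') y hy hind
  have hp : 0 < p := (Fact.out : p.Prime).pos
  let z : Fin n → (ZMod p)[X] := fun j => (y j).num * (y j).denom ^ (p - 1)
  let c : Fin n → RatFunc (ZMod p) := fun j => ι (y j).denom ^ p
  have hc0 : ∀ j, c j ≠ 0 := fun j =>
    pow_ne_zero _ ((map_ne_zero_iff ι hι).mpr (RatFunc.denom_ne_zero _))
  have hDc : ∀ j, D (c j) = 0 := by
    intro j
    simp only [c]
    rw [← map_pow, D_algebraMap p D hD, deriv_pow_p p _ _ dvd_rfl, map_zero]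
  have hz : ∀ j, ι (z j) = c j * y j := by
    intro j
    have h1 := RatFunc.num_div_denom (y j)
    have h2 : ι (y j).denom ≠ 0 := (map_ne_zero_iff ι hι).mpr (RatFunc.denom_ne_zero _)
    have h3 : ι (y j).num = y j * ι (y j).denom := by
      rw [← div_eq_iff h2]; exact h1
    simp only [z, c, map_mul, map_pow, h3]
    rw [← pow_sub_one_mul hp.ne' (ι (y j).denom)]
    ring
  have hit : ∀ (q : (ZMod p)[X]) (i : ℕ), ι (derivative^[i] q) = (⇑D)^[i] (ι q) := by
    intro q i
    induction i with
    | zero => rfl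
    | succ i ih => rw [Function.iterate_succ_apply', Function.iterate_succ_apply', ← ih,
        D_algebraMap p D hD]
  have hL : ∀ j, Lop b' (z j) = 0 := by
    intro j
    apply hι
    unfold Lop
    rw [map_sum, map_zero]
    have := congrArg (c j * ·) (hy j)
    simp only [mul_zero, mul_sum] at this
    rw [← this]
    refine sum_congr rfl fun i _ => ?_
    rw [map_mul, hit, hz, iter_D_const D hl _ _ (hDc j), hae]; ring
  have hW : W z ≠ 0 := by
    intro h0
    have h1 := RingHom.map_det ι (WM z)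
    have h2 : ι.mapMatrix (WM z) = Matrix.of fun (i j : Fin n) => c j *
        (Matrix.of fun (i j : Fin n) => (⇑D)^[(i : ℕ)] (y j)) i j := by
      ext i j : 1
      simp only [WM, RingHom.mapMatrix_apply, Matrix.map_apply, Matrix.of_apply]
      rw [hit, hz, iter_D_const D hl _ _ (hDc j)]
    rw [h2, Matrix.det_mul_row] at h1
    unfold W at h0
    rw [h0, map_zero] at h1
    exact mul_ne_zero (prod_ne_zero_iff.mpr fun j _ => hc0 j) hdet h1.symm
  refine ⟨fun j => (z j).map φ, fun j => ?_, ?_⟩
  · simp only [← hbb]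
    rw [Lop_map, hL, Polynomial.map_zero]
  · rw [W_map]
    exact (Polynomial.map_ne_zero_iff φ.injective).mpr hW

end Pool.Agent.H112Z.PCurv
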