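import Mathlib

/-!
Linear extensions as lists, their descent polynomial and its recurrence; the Laguerre inequality.
-/

open Polynomial

namespace Pool.Agent.H112Z.Sign

open scoped Classical

/-- Number of descents of a list. -/
def des {α : Type} [LinearOrder α] : List α → ℕ
  | a :: b :: l => (if b < a then 1 else 0) + des (b :: l)
  | _ => 0

lemma des_ofFn {α : Type} [LinearOrder α] : ∀ (n : ℕ) (f : Fin n → α),
    des (List.ofFn f) =
      ∑ i : Fin n, if (∃ j : Fin n, j.val = i.val + 1 ∧ f j < f i) then 1 else 0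
  | 0, f => by simp [des]
  | 1, f => by
      have : ¬ ∃ j : Fin 1, j.val = (0 : Fin 1).val + 1 ∧ f j < f 0 := by
        rintro ⟨j, hj, -⟩
        have := j.2
        omega
      simp [des]
  | n + 2, f => by
      have ih := des_ofFn (n + 1) (fun i => f i.succ)
      rw [List.ofFn_succ, Fin.sum_univ_succ]
      have h2 : List.ofFn (fun i : Fin (n + 1) => f i.succ) =
          f (Fin.succ 0) :: List.ofFn (fun i : Fin n => f i.succ.succ) := by
        rw [List.ofFn_succ]
      rw [h2, des, ← h2, ih]
      congr 1
      · have : (∃ j : Fin (n + 2), j.val = (0 : Fin (n + 2)).val + 1 ∧ f j < f 0) ↔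
            f (Fin.succ 0) < f 0 := by
          constructor
          · rintro ⟨j, hj, h⟩
            have : j = Fin.succ 0 := Fin.ext (by simpa using hj)
            rwa [this] at h
          · intro h
            exact ⟨Fin.succ 0, by simp, h⟩
        simp only [this]
      · refine Finset.sum_congr rfl fun i _ => ?_
        have : (∃ j : Fin (n + 1), j.val = i.val + 1 ∧ f j.succ < f i.succ) ↔
            ∃ j : Fin (n + 2), j.val = i.succ.val + 1 ∧ f j < f i.succ := by
          constructor
          · rintro ⟨j, hj, h⟩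
            exact ⟨j.succ, by simp [hj], h⟩
          · rintro ⟨j, hj, h⟩
            have hj2 := j.2
            simp only [Fin.val_succ] at hj
            refine ⟨⟨i.val + 1, by omega⟩, rfl, ?_⟩
            have : (⟨i.val + 1, by omega⟩ : Fin (n + 1)).succ = j := Fin.ext (by simp [hj])
            rwa [this]
        simp only [this]

variable {α : Type} [LinearOrder α] (le : α → α → Prop)

/-- Linear extensions of the restriction of `le` to `S`, as lists. -/
noncomputable def exts (S : Finset α) : Finset (List α) :=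
  S.toList.permutations.toFinset.filter fun l => l.Pairwise fun u v => ¬ le v u

lemma mem_exts {S : Finset α} {l : List α} :
    l ∈ exts le S ↔ l.Nodup ∧ (∀ a, a ∈ l ↔ a ∈ S) ∧ l.Pairwise fun u v => ¬ le v u := by
  simp only [exts, Finset.mem_filter, List.mem_toFinset, List.mem_permutations]
  constructor
  · rintro ⟨h1, h2⟩
    exact ⟨h1.nodup_iff.2 S.nodup_toList, fun a => by rw [h1.mem_iff, Finset.mem_toList], h2⟩
  · rintro ⟨h1, h2, h3⟩
    exact ⟨(List.perm_ext_iff_of_nodup h1 S.nodup_toList).2
      fun a => by rw [h2, Finset.mem_toList], h3⟩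

/-- Descent polynomial of the extensions of `S` written after the letter `a`. -/
noncomputable def F (S : Finset α) (a : α) : ℝ[X] := ∑ l ∈ exts le S, X ^ des (a :: l)

lemma F_empty (a : α) : F le ∅ a = 1 := by
  have : exts le (∅ : Finset α) = {[]} := by
    ext l
    rw [mem_exts]
    simp only [Finset.notMem_empty, iff_false, Finset.mem_singleton]
    constructor
    · rintro ⟨-, h, -⟩
      exact List.eq_nil_iff_forall_not_mem.2 h
    · rintro rfl
      simp
  simp [F, this, des]

lemma F_rec (S : Finset α) (hS : S.Nonempty) (a : α) :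
    F le S a = ∑ u ∈ S.filter (fun u => ∀ v ∈ S.erase u, ¬ le v u),
      X ^ (if u < a then 1 else 0) * F le (S.erase u) u := by
  simp only [F, Finset.mul_sum]
  rw [Finset.sum_sigma']
  symm
  refine Finset.sum_bij (fun x _ => x.1 :: x.2) ?_ ?_ ?_ ?_
  · rintro ⟨u, l⟩ hx
    simp only [Finset.mem_sigma, Finset.mem_filter] at hx
    obtain ⟨⟨hu, hmin⟩, hl⟩ := hx
    rw [mem_exts] at hl ⊢
    obtain ⟨h1, h2, h3⟩ := hl
    refine ⟨List.nodup_cons.2 ⟨fun h => ?_, h1⟩, fun b => ?_, List.pairwise_cons.2 ⟨?_, h3⟩⟩
    · simpa using (h2 u).1 h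
    · rw [List.mem_cons, h2, Finset.mem_erase]
      constructor
      · rintro (rfl | h)
        · exact hu
        · exact h.2
      · intro h
        by_cases hb : b = u
        · exact Or.inl hb
        · exact Or.inr ⟨hb, h⟩
    · intro b hb
      exact hmin b ((h2 b).1 hb)
  · rintro ⟨u, l⟩ _ ⟨u', l'⟩ _ h
    simp only [List.cons.injEq] at h
    obtain ⟨rfl, rfl⟩ := h
    rfl
  · intro l hl
    rw [mem_exts] at hl
    obtain ⟨h1, h2, h3⟩ := hl
    cases l with
    | nil =>
      obtain ⟨b, hb⟩ := hS
      simpa using (h2 b).2 hb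
    | cons u l =>
      rw [List.nodup_cons] at h1
      rw [List.pairwise_cons] at h3
      have key : ∀ b, b ∈ l ↔ b ∈ S.erase u := by
        intro b
        rw [Finset.mem_erase, ← h2, List.mem_cons]
        constructor
        · intro hb
          exact ⟨fun h => h1.1 (h ▸ hb), Or.inr hb⟩
        · rintro ⟨hb, h | h⟩
          · exact absurd h hb
          · exact h
      refine ⟨⟨u, l⟩, ?_, rfl⟩
      simp only [Finset.mem_sigma, Finset.mem_filter]
      refine ⟨⟨(h2 u).1 (by simp), fun v hv => h3.1 v ((key v).2 hv)⟩, ?_⟩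
      rw [mem_exts]
      exact ⟨h1.2, key, h3.2⟩
  · rintro ⟨u, l⟩ _
    simp only [des, pow_add]

lemma F_rec' (S : Finset α) (hS : S.Nonempty) (a : α) (M : Finset α) (R : α → Finset α)
    (e : α → ℕ) (hM : ∀ u, u ∈ M ↔ u ∈ S ∧ ∀ v, v ≠ u → v ∈ S → ¬ le v u)
    (hR : ∀ u ∈ M, ∀ v, v ∈ R u ↔ v ≠ u ∧ v ∈ S)
    (he : ∀ u ∈ M, (u < a → e u = 1) ∧ (¬ u < a → e u = 0)) :
    F le S a = ∑ u ∈ M, X ^ e u * F le (R u) u := by
  rw [F_rec le S hS]
  refine Finset.sum_congr ?_ fun u hu => ?_
  · ext u
    simp only [Finset.mem_filter, hM, Finset.mem_erase, and_imp]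
  · have h1 : S.erase u = R u := by
      ext v
      rw [hR u hu, Finset.mem_erase]
    rw [h1]
    by_cases h : u < a
    · rw [if_pos h, (he u hu).1 h]
    · rw [if_neg h, (he u hu).2 h]

lemma des_bot (a : α) (ha : ∀ b, ¬ b < a) (l : List α) : des (a :: l) = des l := by
  cases l with
  | nil => simp [des]
  | cons b l => simp [des, ha b]

lemma sum_perm (p : ℕ) (le : Fin p → Fin p → Prop) (a : Fin p) (ha : ∀ b, ¬ b < a) :
    (∑ σ ∈ Finset.univ.filter
        (fun σ : Equiv.Perm (Fin p) => ∀ i j, le (σ i) (σ j) → i ≤ j),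
      (X : ℝ[X]) ^ (Finset.univ.filter
        (fun i : Fin p => ∃ j : Fin p, j.val = i.val + 1 ∧ σ j < σ i)).card) =
      F le Finset.univ a := by
  unfold F
  refine Finset.sum_bij (fun σ _ => List.ofFn σ) ?_ ?_ ?_ ?_
  · intro σ hσ
    simp only [Finset.mem_filter, Finset.mem_univ, true_and] at hσ
    rw [mem_exts]
    refine ⟨List.nodup_ofFn.2 σ.injective, fun b => ?_, ?_⟩
    · simp only [List.mem_ofFn, Finset.mem_univ, iff_true]
      exact σ.surjective b
    · rw [List.pairwise_ofFn]
      intro i j hij h
      exact absurd (hσ j i h) (not_le.2 hij)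
  · intro σ _ τ _ h
    exact Equiv.ext (congrFun (List.ofFn_injective h))
  · intro l hl
    rw [mem_exts] at hl
    obtain ⟨h1, h2, h3⟩ := hl
    have hlen : l.length = p := by
      rw [← List.toFinset_card_of_nodup h1]
      have : l.toFinset = Finset.univ := by
        ext b
        simp [h2]
      simp [this]
    obtain ⟨f, rfl⟩ : ∃ f : Fin p → Fin p, l = List.ofFn f := by
      refine ⟨fun i => l.get (i.cast hlen.symm), ?_⟩
      refine List.ext_get (by simp [hlen]) fun n _ _ => by simp
    have hinj : Function.Injective f := List.nodup_ofFn.1 h1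
    refine ⟨Equiv.ofBijective f (Finite.injective_iff_bijective.1 hinj), ?_, rfl⟩
    simp only [Finset.mem_filter, Finset.mem_univ, true_and, Equiv.ofBijective_apply]
    intro i j h
    by_contra hij
    exact (List.pairwise_ofFn.1 h3) (not_le.1 hij) h
  · intro σ _
    rw [des_bot a ha, des_ofFn, Finset.card_filter]

lemma laguerre_prod (s : Multiset ℝ) (t : ℝ) :
    ((s.map fun r => X - C r).prod).eval t *
        (derivative (derivative (s.map fun r => X - C r).prod)).eval t ≤
      ((derivative (s.map fun r => X - C r).prod).eval t) ^ 2 := by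
  induction s using Multiset.induction_on with
  | empty => simp
  | cons r s ih =>
    rw [Multiset.map_cons, Multiset.prod_cons]
    set q := (s.map fun r => X - C r).prod
    simp only [derivative_mul, derivative_sub, derivative_X, derivative_C, sub_zero, one_mul,
      derivative_add, eval_add, eval_mul, eval_sub, eval_X, eval_C]
    nlinarith [mul_le_mul_of_nonneg_left ih (sq_nonneg (t - r)), sq_nonneg (q.eval t)]

/-- Laguerre inequality for a real polynomial all of whose complex zeros are real. -/
lemma laguerre (q : ℝ[X]) (h : ∀ z : ℂ, aeval z q = 0 → z.im = 0) (t : ℝ) :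
    q.eval t * (derivative (derivative q)).eval t ≤ ((derivative q).eval t) ^ 2 := by
  by_cases hq : q = 0
  · simp [hq]
  have hs : q.Splits := by
    refine Splits.of_splits_map (algebraMap ℝ ℂ)
      (IsAlgClosed.splits _) fun z hz => ?_
    have hz' : aeval z q = 0 := by
      rw [mem_roots (by simpa using hq), IsRoot.def, eval_map_algebraMap] at hz
      exact hz
    exact ⟨z.re, Complex.ext (by simp) (by simp [h z hz'])⟩
  have e := hs.eq_prod_roots
  have := laguerre_prod q.roots t
  rw [e]
  simp only [derivative_mul, derivative_C, zero_mul, zero_add, eval_mul, eval_C]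
  nlinarith [mul_le_mul_of_nonneg_left this (sq_nonneg q.leadingCoeff)]

end Pool.Agent.H112Z.Sign
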