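import Pool.Agent.H112Z.SignBasic
import Pool.Agent.H112Z.SignTab

/-!
The strip poset on 52 labels: two chains `a_0 < ... < a_25`, `b_0 < ... < b_25` with
`b_j < a_(j+1)` and `a_i < b_(i+7)`; even indices carry the labels below 26.
-/

open Polynomial

namespace Pool.Agent.H112Z.Sign

/-- Chain of a label. -/
def ch (u : Fin 52) : ℕ := (u.val % 26) % 2

/-- Position of a label in its chain. -/
def ix (u : Fin 52) : ℕ := 2 * ((u.val % 26) / 2) + u.val / 26

/-- Label of position `i` of chain `c`. -/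
def lab (c i : ℕ) : ℕ := (i % 2) * 26 + (i / 2) * 2 + c

/-- The label as an element of `Fin 52`. -/
def mk (c i : ℕ) : Fin 52 := ⟨lab c i % 52, Nat.mod_lt _ (by norm_num)⟩

/-- The partial order. -/
def ple (u v : Fin 52) : Prop :=
  (ch u = ch v ∧ ix u ≤ ix v) ∨ (ch u = 1 ∧ ch v = 0 ∧ ix u + 1 ≤ ix v) ∨
    (ch u = 0 ∧ ch v = 1 ∧ ix u + 7 ≤ ix v)

lemma ch_lt (u : Fin 52) : ch u < 2 := by unfold ch; omega

lemma ix_lt (u : Fin 52) : ix u < 26 := by have := u.2; unfold ix; omega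

lemma mk_val {c i : ℕ} (hc : c < 2) (hi : i < 26) : (mk c i).val = lab c i := by
  simp only [mk, lab]; omega

lemma ch_mk {c i : ℕ} (hc : c < 2) (hi : i < 26) : ch (mk c i) = c := by
  unfold ch; rw [mk_val hc hi]; unfold lab; omega

lemma ix_mk {c i : ℕ} (hc : c < 2) (hi : i < 26) : ix (mk c i) = i := by
  unfold ix; rw [mk_val hc hi]; unfold lab; omega

lemma ext_ci {u v : Fin 52} (h1 : ch u = ch v) (h2 : ix u = ix v) : u = v := by
  have := u.2; have := v.2
  apply Fin.ext
  unfold ch at h1; unfold ix at h2; omega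

lemma ple_refl (u : Fin 52) : ple u u := Or.inl ⟨rfl, le_rfl⟩

lemma ple_antisymm (u v : Fin 52) (h1 : ple u v) (h2 : ple v u) : u = v := by
  unfold ple at h1 h2
  apply ext_ci <;> omega

lemma ple_trans (u v w : Fin 52) (h1 : ple u v) (h2 : ple v w) : ple u w := by
  have := ch_lt u; have := ch_lt v; have := ch_lt w
  unfold ple at *
  omega

lemma cover (u v : Fin 52) (h : ple u v) (hne : u ≠ v)
    (hc : ∀ z, ple u z → ple z v → z = u ∨ z = v) :
    (if u < v then (1 : ℤ) else -1) = ((ix v % 2 : ℕ) : ℤ) - ((ix u % 2 : ℕ) : ℤ) := by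
  have hu := ix_lt u; have hv := ix_lt v; have cu := ch_lt u; have cv := ch_lt v
  have hne' : ¬ (ch u = ch v ∧ ix u = ix v) := fun h => hne (ext_ci h.1 h.2)
  have key : ix v = ix u + 1 ∨ ix v = ix u + 7 := by
    by_contra hk
    have h1 : ch (mk (ch v) (ix v - 1)) = ch v := ch_mk cv (by omega)
    have h2 : ix (mk (ch v) (ix v - 1)) = ix v - 1 := ix_mk cv (by omega)
    have h3 := hc (mk (ch v) (ix v - 1)) (by unfold ple at *; omega) (by unfold ple at *; omega)
    rcases h3 with h3 | h3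
    · rw [h3] at h1 h2; unfold ple at h; omega
    · rw [h3] at h2; unfold ple at h; omega
  have e1 : ix u % 2 = u.val / 26 := by have := u.2; unfold ix; omega
  have e2 : ix v % 2 = v.val / 26 := by have := v.2; unfold ix; omega
  have := u.2; have := v.2
  split_ifs with huv
  · have : u.val < v.val := huv
    omega
  · have : ¬ u.val < v.val := huv
    omega

lemma min_par (u : Fin 52) (h : ∀ y, ple y u → y = u) : ix u % 2 = 0 := by
  have hu := ix_lt u; have cu := ch_lt u
  have h1 : ch (mk (ch u) 0) = ch u := ch_mk cu (by omega)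
  have h2 : ix (mk (ch u) 0) = 0 := ix_mk cu (by omega)
  have := h (mk (ch u) 0) (by unfold ple; omega)
  rw [this] at h2
  omega

lemma max_par (u : Fin 52) (h : ∀ y, ple u y → y = u) : ix u % 2 = 1 := by
  have hu := ix_lt u; have cu := ch_lt u
  have h1 : ch (mk (ch u) 25) = ch u := ch_mk cu (by omega)
  have h2 : ix (mk (ch u) 25) = 25 := ix_mk cu (by omega)
  have := h (mk (ch u) 25) (by unfold ple; omega)
  rw [this] at h2
  omega

lemma graded (k : ℕ) (c : Fin (k + 1) → Fin 52) (h0 : ∀ y, ple y (c 0) → y = c 0)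
    (h1 : ∀ y, ple (c (Fin.last k)) y → y = c (Fin.last k))
    (h : ∀ i : Fin k, ple (c i.castSucc) (c i.succ) ∧ c i.castSucc ≠ c i.succ ∧
        ∀ z, ple (c i.castSucc) z → ple z (c i.succ) → z = c i.castSucc ∨ z = c i.succ) :
    ∑ i : Fin k, (if c i.castSucc < c i.succ then (1 : ℤ) else -1) = 1 := by
  rw [Finset.sum_congr rfl fun i _ => cover _ _ (h i).1 (h i).2.1 (h i).2.2,
    Finset.sum_sub_distrib]
  have e1 := Fin.sum_univ_succ fun i : Fin (k + 1) => ((ix (c i) % 2 : ℕ) : ℤ)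
  have e2 := Fin.sum_univ_castSucc fun i : Fin (k + 1) => ((ix (c i) % 2 : ℕ) : ℤ)
  rw [min_par _ h0] at e1
  rw [max_par _ h1] at e2
  push_cast at e1 e2 ⊢
  linarith

/-- The up-set left after removing `x` elements of the first chain and `y` of the second. -/
def S (x y : ℕ) : Finset (Fin 52) :=
  Finset.univ.filter fun u => (ch u = 0 ∧ x ≤ ix u) ∨ (ch u = 1 ∧ y ≤ ix u)

lemma mem_S {x y : ℕ} {u : Fin 52} :
    u ∈ S x y ↔ (ch u = 0 ∧ x ≤ ix u) ∨ (ch u = 1 ∧ y ≤ ix u) := by simp [S]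

lemma S_zero : S 0 0 = Finset.univ := by
  ext u
  have := ch_lt u
  simp only [mem_S, Finset.mem_univ, iff_true]
  omega

lemma S_top : S 26 26 = ∅ := by
  ext u
  have := ix_lt u
  simp only [mem_S, Finset.notMem_empty, iff_false]
  omega

lemma eq_mk {c i : ℕ} (hc : c < 2) (hi : i < 26) {u : Fin 52} :
    u = mk c i ↔ ch u = c ∧ ix u = i := by
  constructor
  · rintro rfl
    exact ⟨ch_mk hc hi, ix_mk hc hi⟩
  · rintro ⟨h1, h2⟩
    exact ext_ci (by rw [ch_mk hc hi, h1]) (by rw [ix_mk hc hi, h2])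

lemma erase_a {x : ℕ} (y : ℕ) (hx : x < 26) : (S x y).erase (mk 0 x) = S (x + 1) y := by
  ext u
  rw [Finset.mem_erase, mem_S, mem_S, Ne, eq_mk (by norm_num) hx]
  omega

lemma erase_b (x : ℕ) {y : ℕ} (hy : y < 26) : (S x y).erase (mk 1 y) = S x (y + 1) := by
  ext u
  rw [Finset.mem_erase, mem_S, mem_S, Ne, eq_mk (by norm_num) hy]
  omega

lemma min_iff {x y : ℕ} (hx : x ≤ 26) (hy : y ≤ 26) (u : Fin 52) :
    (u ∈ S x y ∧ ∀ v, v ≠ u → v ∈ S x y → ¬ ple v u) ↔
      (x < 26 ∧ x ≤ y ∧ ch u = 0 ∧ ix u = x) ∨ (y < 26 ∧ y < x + 7 ∧ ch u = 1 ∧ ix u = y) := by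
  have hu := ix_lt u; have cu := ch_lt u
  constructor
  · rintro ⟨h1, h2⟩
    rw [mem_S] at h1
    have ha : x < 26 → ¬ (ch u = 0 ∧ ix u = x) → ¬ ple (mk 0 x) u := fun h h' =>
      h2 _ (fun e => h' ((eq_mk (by norm_num) h).1 e.symm)) (by
        rw [mem_S, ch_mk (by norm_num) h, ix_mk (by norm_num) h]
        omega)
    have hb : y < 26 → ¬ (ch u = 1 ∧ ix u = y) → ¬ ple (mk 1 y) u := fun h h' =>
      h2 _ (fun e => h' ((eq_mk (by norm_num) h).1 e.symm)) (by
        rw [mem_S, ch_mk (by norm_num) h, ix_mk (by norm_num) h]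
        omega)
    unfold ple at ha hb
    by_cases h3 : x < 26 <;> by_cases h4 : y < 26
    · rw [ch_mk (by norm_num) h3, ix_mk (by norm_num) h3] at ha
      rw [ch_mk (by norm_num) h4, ix_mk (by norm_num) h4] at hb
      omega
    · rw [ch_mk (by norm_num) h3, ix_mk (by norm_num) h3] at ha
      omega
    · rw [ch_mk (by norm_num) h4, ix_mk (by norm_num) h4] at hb
      omega
    · omega
  · intro h
    refine ⟨by rw [mem_S]; omega, fun v hv hv' => ?_⟩
    rw [mem_S] at hv'
    have hne : ¬ (ch v = ch u ∧ ix v = ix u) := fun e => hv (ext_ci e.1 e.2)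
    unfold ple
    omega

lemma F_S {x y : ℕ} (hx : x ≤ 26) (hy : y ≤ 26) (hxy : ¬ (x = 26 ∧ y = 26)) (a : Fin 52) :
    F ple (S x y) a =
      (if x < 26 ∧ x ≤ y then
        X ^ (if lab 0 x < a.val then 1 else 0) * F ple (S (x + 1) y) (mk 0 x) else 0) +
      (if y < 26 ∧ y < x + 7 then
        X ^ (if lab 1 y < a.val then 1 else 0) * F ple (S x (y + 1)) (mk 1 y) else 0) := by
  have hne : (S x y).Nonempty := by
    by_cases h : x < 26
    · exact ⟨mk 0 x, by rw [mem_S, ch_mk (by norm_num) h, ix_mk (by norm_num) h]; omega⟩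
    · have h' : y < 26 := by omega
      exact ⟨mk 1 y, by rw [mem_S, ch_mk (by norm_num) h', ix_mk (by norm_num) h']; omega⟩
  have key : ∀ M : Finset (Fin 52), (∀ u, u ∈ M ↔ (x < 26 ∧ x ≤ y ∧ ch u = 0 ∧ ix u = x) ∨
      (y < 26 ∧ y < x + 7 ∧ ch u = 1 ∧ ix u = y)) → F ple (S x y) a =
      ∑ u ∈ M, X ^ (if u.val < a.val then 1 else 0) * F ple ((S x y).erase u) u := by
    intro M hM
    refine F_rec' ple _ hne a M _ _ (fun u => by rw [hM, min_iff hx hy])
      (fun u _ v => Finset.mem_erase) (fun u _ => ⟨fun h => if_pos h, fun h => if_neg h⟩)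
  by_cases h1 : x < 26 ∧ x ≤ y <;> by_cases h2 : y < 26 ∧ y < x + 7
  · have hd : mk 0 x ≠ mk 1 y := by
      rw [Ne, eq_mk (by norm_num) h2.1, ch_mk (by norm_num) h1.1]
      omega
    rw [key {mk 0 x, mk 1 y} (fun u => by
      rw [Finset.mem_insert, Finset.mem_singleton, eq_mk (by norm_num) h1.1,
        eq_mk (by norm_num) h2.1]
      omega), Finset.sum_pair hd, if_pos h1, if_pos h2, erase_a y h1.1, erase_b x h2.1,
      mk_val (by norm_num) h1.1, mk_val (by norm_num) h2.1]
  · rw [key {mk 0 x} (fun u => by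
      rw [Finset.mem_singleton, eq_mk (by norm_num) h1.1]
      omega), Finset.sum_singleton, if_pos h1, if_neg h2, erase_a y h1.1, add_zero,
      mk_val (by norm_num) h1.1]
  · rw [key {mk 1 y} (fun u => by
      rw [Finset.mem_singleton, eq_mk (by norm_num) h2.1]
      omega), Finset.sum_singleton, if_neg h1, if_pos h2, erase_b x h2.1, zero_add,
      mk_val (by norm_num) h2.1]
  · omega

/-- Jet of a polynomial at `-48`. -/
noncomputable def J (q : ℝ[X]) : ℝ × ℝ × ℝ :=
  (q.eval (-48), (derivative q).eval (-48), (derivative (derivative q)).eval (-48))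

/-- Integer triples as real triples. -/
def cst (j : ℤ × ℤ × ℤ) : ℝ × ℝ × ℝ := (j.1, j.2.1, j.2.2)

/-- Effect of multiplication by `X` on jets. -/
def sh (e : Bool) (j : ℤ × ℤ × ℤ) : ℤ × ℤ × ℤ :=
  if e then (-48 * j.1, j.1 - 48 * j.2.1, 2 * j.2.1 - 48 * j.2.2) else j

/-- Sum of triples. -/
def ad (i j : ℤ × ℤ × ℤ) : ℤ × ℤ × ℤ := (i.1 + j.1, i.2.1 + j.2.1, i.2.2 + j.2.2)

lemma J_add (p q : ℝ[X]) (i j : ℤ × ℤ × ℤ) (hp : J p = cst i) (hq : J q = cst j) :
    J (p + q) = cst (ad i j) := by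
  simp only [J, cst, ad, Prod.mk.injEq, derivative_add, eval_add] at *
  push_cast
  refine ⟨by rw [hp.1, hq.1], by rw [hp.2.1, hq.2.1], by rw [hp.2.2, hq.2.2]⟩

lemma J_sh (P : Prop) [Decidable P] (q : ℝ[X]) (j : ℤ × ℤ × ℤ) (hq : J q = cst j) :
    J (X ^ (if P then 1 else 0) * q) = cst (sh (decide P) j) := by
  by_cases h : P
  · simp only [J, cst, sh, Prod.mk.injEq, h, if_true, decide_true, pow_one, derivative_mul,
      derivative_X, one_mul, derivative_add, eval_add, eval_mul, eval_X] at *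
    push_cast
    refine ⟨by rw [hq.1], by rw [hq.1, hq.2.1]; ring, by rw [hq.2.1, hq.2.2]; ring⟩
  · simpa [sh, h] using hq

/-- Table lookup. -/
def T (x y c : ℕ) : ℤ × ℤ × ℤ := (tab.getD x []).getD (2 * (y + 1 - x) + c) (0, 0, 0)

/-- Last label written. -/
def lst (x y c : ℕ) : ℕ := if c = 0 then lab 0 (x - 1) else lab 1 (y - 1)

/-- Right side of the recurrence. -/
def rhs (x y c : ℕ) : ℤ × ℤ × ℤ :=
  if x = 26 ∧ y = 26 then (1, 0, 0) else
    ad (if x < 26 ∧ x ≤ y then sh (decide (lab 0 x < lst x y c)) (T (x + 1) y 0) else (0, 0, 0))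
      (if y < 26 ∧ y < x + 7 then sh (decide (lab 1 y < lst x y c)) (T x (y + 1) 1) else (0, 0, 0))

/-- Equality test for triples. -/
def eqb (i j : ℤ × ℤ × ℤ) : Bool := i.1 == j.1 && i.2.1 == j.2.1 && i.2.2 == j.2.2

/-- The check of one entry. -/
def chk (x y c : ℕ) : Bool :=
  if x ≤ y + 1 ∧ y ≤ x + 7 then eqb (T x y c) (rhs x y c) else true

lemma tab_chk : ((List.range 27).all fun x => (List.range 27).all fun y =>
    (List.range 2).all fun c => chk x y c) = true := by
  decide +kernel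

lemma tab_ok : ∀ x < 27, ∀ y < 27, ∀ c < 2, x ≤ y + 1 → y ≤ x + 7 → T x y c = rhs x y c := by
  intro x hx y hy c hc h1 h2
  have h := tab_chk
  simp only [List.all_eq_true, List.mem_range] at h
  have := h x hx y hy c hc
  rw [chk, if_pos ⟨h1, h2⟩] at this
  simp only [eqb, Bool.and_eq_true, beq_iff_eq] at this
  exact Prod.ext this.1.1 (Prod.ext this.1.2 this.2)

lemma J_F : ∀ (n x y c : ℕ) (a : Fin 52), x + y + n = 52 → x ≤ 26 → y ≤ 26 → c < 2 →
    x ≤ y + 1 → y ≤ x + 7 → a.val = lst x y c → J (F ple (S x y) a) = cst (T x y c) := by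
  intro n
  induction n with
  | zero =>
    intro x y c a h hx hy hc h1 h2 ha
    obtain rfl : x = 26 := by omega
    obtain rfl : y = 26 := by omega
    rw [tab_ok 26 (by norm_num) 26 (by norm_num) c hc h1 h2, S_top, F_empty]
    simp [rhs, J, cst]
  | succ n ih =>
    intro x y c a h hx hy hc h1 h2 ha
    have hxy : ¬ (x = 26 ∧ y = 26) := by omega
    rw [tab_ok x (by omega) y (by omega) c hc h1 h2, F_S hx hy hxy, rhs, if_neg hxy, ha]
    refine J_add _ _ _ _ ?_ ?_
    · split_ifs with h3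
      all_goals first
        | (simp [J, cst]; done)
        | skip
      all_goals
        have := J_sh (lab 0 x < lst x y c) _ _ (ih (x + 1) y 0 (mk 0 x) (by omega) (by omega) hy
          (by norm_num) (by omega) (by omega) (by rw [mk_val (by norm_num) h3.1]; simp [lst]))
        simpa [*] using this
    · split_ifs with h3
      all_goals first
        | (simp [J, cst]; done)
        | skip
      all_goals
        have := J_sh (lab 1 y < lst x y c) _ _ (ih x (y + 1) 1 (mk 1 y) (by omega) hx (by omega)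
          (by norm_num) (by omega) (by omega) (by rw [mk_val (by norm_num) h3.1]; simp [lst]))
        simpa [*] using this

lemma tab_bad : (T 0 0 0).2.1 ^ 2 < (T 0 0 0).1 * (T 0 0 0).2.2 := by
  decide +kernel

theorem not_real : ¬ ∀ z : ℂ, aeval z (F ple Finset.univ (0 : Fin 52)) = 0 → z.im = 0 := by
  intro h
  have h1 := laguerre _ h (-48)
  have h2 := J_F 52 0 0 0 0 rfl (by norm_num) (by norm_num) (by norm_num) (by norm_num)
    (by norm_num) (by simp [lst, lab])
  rw [S_zero] at h2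
  simp only [J, cst, Prod.mk.injEq] at h2
  rw [h2.1, h2.2.1, h2.2.2] at h1
  have h3 := tab_bad
  have h4 : (((T 0 0 0).2.1 : ℤ) : ℝ) ^ 2 < ((T 0 0 0).1 : ℝ) * ((T 0 0 0).2.2 : ℝ) := by
    exact_mod_cast h3
  linarith

end Pool.Agent.H112Z.Sign
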