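import Mathlib

/-!
# Wronskians of polynomials: orders of vanishing and degrees
-/

namespace Pool.Agent.H112Z.PCurv

open Polynomial Finset

variable {k : Type*} [Field k] {n : ℕ}

/-- Wronskian matrix -/
noncomputable def WM (y : Fin n → k[X]) : Matrix (Fin n) (Fin n) k[X] :=
  Matrix.of fun i j => derivative^[(i : ℕ)] (y j)

noncomputable def W (y : Fin n → k[X]) : k[X] := (WM y).det

theorem iter_const_mul (c z : k[X]) (hc : derivative c = 0) (i : ℕ) :
    derivative^[i] (c * z) = c * derivative^[i] z := by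
  induction i with
  | zero => rfl
  | succ i ih => rw [Function.iterate_succ_apply', ih, Function.iterate_succ_apply',
      derivative_mul, hc, zero_mul, zero_add]

theorem iter_add (a z : k[X]) (i : ℕ) :
    derivative^[i] (a + z) = derivative^[i] a + derivative^[i] z := by
  induction i with
  | zero => rfl
  | succ i ih => rw [Function.iterate_succ_apply', ih, Function.iterate_succ_apply',
      Function.iterate_succ_apply', derivative_add]

theorem WM_update (y : Fin n → k[X]) (j : Fin n) (z : k[X]) :
    WM (Function.update y j z) = (WM y).updateCol j (fun i => derivative^[(i : ℕ)] z) := by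
  ext i l : 1
  by_cases h : l = j
  · subst h; simp [WM]
  · simp [WM, h]

theorem W_update_mul (y : Fin n → k[X]) (j : Fin n) (c z : k[X]) (hc : derivative c = 0) :
    W (Function.update y j (c * z)) = c * W (Function.update y j z) := by
  unfold W
  rw [WM_update, WM_update]
  have : (fun i : Fin n => derivative^[(i : ℕ)] (c * z)) =
      c • (fun i : Fin n => derivative^[(i : ℕ)] z) := by
    funext i; simp [iter_const_mul c z hc]
  rw [this, Matrix.det_updateCol_smul]

theorem W_update_sum (y : Fin n → k[X]) (j : Fin n) (c : Fin n → k[X])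
    (hc : ∀ l, derivative (c l) = 0) :
    W (Function.update y j (∑ l, c l * y l)) = c j * W y := by
  unfold W
  rw [WM_update]
  have : (fun i : Fin n => derivative^[(i : ℕ)] (∑ l, c l * y l)) =
      (fun i : Fin n => ∑ l, c l • WM y i l) := by
    funext i
    rw [iterate_derivative_sum]
    refine sum_congr rfl fun l _ => ?_
    rw [iter_const_mul _ _ (hc l)]; rfl
  rw [this, Matrix.det_updateCol_sum]; rfl

theorem W_update_sub (y : Fin n → k[X]) (j l : Fin n) (hjl : j ≠ l) (c : k[X])
    (hc : derivative c = 0) : W (Function.update y j (y j - c * y l)) = W y := by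
  classical
  have h := W_update_sum y j (fun m => if m = j then 1 else if m = l then -c else 0) (by
    intro m; split_ifs <;> simp [hc])
  simp only [if_true, one_mul] at h
  rw [← h]
  congr 2
  rw [← Finset.add_sum_erase _ _ (mem_univ j), ← Finset.add_sum_erase _ _
    (mem_erase.mpr ⟨hjl.symm, mem_univ l⟩)]
  rw [Finset.sum_eq_zero]
  · simp [hjl.symm]; ring
  · intro m hm
    have h1 := (mem_erase.mp hm).1
    have h2 := (mem_erase.mp (mem_erase.mp hm).2).1
    simp [h1, h2]

theorem ne_zero_of_W (y : Fin n → k[X]) (h : W y ≠ 0) (j : Fin n) : y j ≠ 0 := by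
  intro h0
  apply h
  apply Matrix.det_eq_zero_of_column_eq_zero j
  intro i; simp [WM, h0]

/-- local expansion of `(X - s)^i D^i y` -/
theorem euler_local (s : k) (o : ℕ) (u : k[X]) (i : ℕ) : ∃ g : k[X],
    (X - C s) ^ i * derivative^[i] ((X - C s) ^ o * u) = (X - C s) ^ o * g ∧
      g.eval s = (descPochhammer k i).eval (o : k) * u.eval s := by
  induction i with
  | zero => exact ⟨u, by simp, by simp⟩
  | succ i ih =>
    obtain ⟨g, h1, h2⟩ := ih
    refine ⟨C ((o : k) - i) * g + (X - C s) * derivative g, ?_, ?_⟩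
    · have h3 := congrArg (fun q => (X - C s) * derivative q) h1
      simp only [derivative_mul, derivative_X_sub_C_pow] at h3
      rw [Function.iterate_succ_apply']
      have e1 : (X - C s) * (C (i : k) * (X - C s) ^ (i - 1)) = C (i : k) * (X - C s) ^ i := by
        cases i with
        | zero => simp
        | succ i => simp only [Nat.add_sub_cancel]; ring
      have e2 : (X - C s) * (C (o : k) * (X - C s) ^ (o - 1)) = C (o : k) * (X - C s) ^ o := by
        cases o with
        | zero => simp
        | succ i => simp only [Nat.add_sub_cancel]; ring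
      set z := derivative^[i] ((X - C s) ^ o * u)
      have e3 : (X - C s) ^ (i + 1) * derivative z =
          (X - C s) * (C (i : k) * (X - C s) ^ (i - 1) * z + (X - C s) ^ i * derivative z)
            - (X - C s) * (C (i : k) * (X - C s) ^ (i - 1)) * z := by ring
      rw [e3, h3, e1, mul_add, ← mul_assoc (X - C s) _ g, e2, mul_assoc (C (i : k)), h1, C_sub]
      ring
    · rw [descPochhammer_succ_eval]
      simp [h2]; ring

theorem det_desc (v : Fin n → k) (hv : Function.Injective v) (u : Fin n → k) (hu : ∀ j, u j ≠ 0) :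
    (Matrix.of fun (i j : Fin n) => (descPochhammer k i).eval (v j) * u j).det ≠ 0 := by
  have h1 := Matrix.det_eval_matrixOfPolynomials_eq_det_vandermonde v
    (fun i : Fin n => descPochhammer k i) (fun i => descPochhammer_natDegree k i)
    (fun i => monic_descPochhammer k i)
  have h2 : (Matrix.of fun (i j : Fin n) => (descPochhammer k i).eval (v j) * u j) =
      (Matrix.of fun (i j : Fin n) => u j *
        (Matrix.of (fun i j : Fin n => (descPochhammer k j).eval (v i))).transpose i j) := by
    ext i j; simp [mul_comm]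
  rw [h2, Matrix.det_mul_row, Matrix.det_transpose, ← h1]
  exact mul_ne_zero (prod_ne_zero_iff.mpr fun j _ => hu j)
    (Matrix.det_vandermonde_ne_zero_iff.mpr hv)

theorem det_rows (c : k[X]) (y : Fin n → k[X]) :
    (Matrix.of fun (i j : Fin n) => c ^ (i : ℕ) * derivative^[(i : ℕ)] (y j)).det =
      c ^ (∑ i : Fin n, (i : ℕ)) * W y := by
  rw [← prod_pow_eq_pow_sum]
  exact Matrix.det_mul_column (fun i : Fin n => c ^ (i : ℕ)) (WM y)

/-- order of vanishing of the Wronskian -/
theorem rootMult_W (s : k) (y : Fin n → k[X]) (hW : W y ≠ 0)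
    (hinj : Function.Injective fun j => (rootMultiplicity s (y j) : k)) :
    rootMultiplicity s (W y) + ∑ i : Fin n, (i : ℕ) = ∑ j, rootMultiplicity s (y j) := by
  have hy := ne_zero_of_W y hW
  have h1 : ∀ j, ∃ u : k[X], y j = (X - C s) ^ rootMultiplicity s (y j) * u ∧ u.eval s ≠ 0 := by
    intro j
    obtain ⟨u, h1, h2⟩ := exists_eq_pow_rootMultiplicity_mul_and_not_dvd (y j) (hy j) s
    exact ⟨u, h1, fun h => h2 (dvd_iff_isRoot.mpr h)⟩
  choose u hu1 hu2 using h1
  choose g hg1 hg2 using fun (i j : Fin n) => euler_local s (rootMultiplicity s (y j)) (u j) i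
  have h2 : (Matrix.of fun (i j : Fin n) => (X - C s) ^ (i : ℕ) * derivative^[(i : ℕ)] (y j)) =
      Matrix.of fun (i j : Fin n) => (X - C s) ^ rootMultiplicity s (y j) * Matrix.of g i j := by
    ext i j : 1
    simp only [Matrix.of_apply]
    rw [← hg1, ← hu1]
  have h3 := det_rows (X - C s) y
  rw [h2, Matrix.det_mul_row, prod_pow_eq_pow_sum] at h3
  have h4 : ((Matrix.of g).det).eval s ≠ 0 := by
    have := RingHom.map_det (evalRingHom s) (Matrix.of g)
    simp only [coe_evalRingHom] at this
    rw [this]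
    have e : (evalRingHom s).mapMatrix (Matrix.of g) = Matrix.of fun (i j : Fin n) =>
        (descPochhammer k i).eval (rootMultiplicity s (y j) : k) * (u j).eval s := by
      ext i j; simp [hg2]
    rw [e]
    exact det_desc _ hinj _ hu2
  have h5 : (Matrix.of g).det ≠ 0 := by rintro h; rw [h] at h4; simp at h4
  have h6 := congrArg (rootMultiplicity s) h3
  rw [rootMultiplicity_mul (mul_ne_zero (pow_ne_zero _ (X_sub_C_ne_zero s)) h5),
    rootMultiplicity_mul (mul_ne_zero (pow_ne_zero _ (X_sub_C_ne_zero s)) hW),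
    rootMultiplicity_X_sub_C_pow, rootMultiplicity_X_sub_C_pow,
    rootMultiplicity_eq_zero (by exact h4)] at h6
  omega

theorem euler_inf (y : k[X]) (i : ℕ) :
    (X ^ i * derivative^[i] y).natDegree ≤ y.natDegree ∧
    (X ^ i * derivative^[i] y).coeff y.natDegree =
      (descPochhammer k i).eval (y.natDegree : k) * y.leadingCoeff := by
  have key : ∀ m : ℕ, (X ^ i * derivative^[i] y).coeff m =
      (descPochhammer k i).eval (m : k) * y.coeff m := by
    intro m
    rw [coeff_X_pow_mul']
    split_ifs with h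
    · rw [coeff_iterate_derivative, Nat.sub_add_cancel h, descPochhammer_eval_eq_descFactorial,
        nsmul_eq_mul]
    · rw [descPochhammer_eval_eq_descFactorial, Nat.descFactorial_of_lt (by omega)]; simp
  refine ⟨?_, key _⟩
  rw [natDegree_le_iff_coeff_eq_zero]
  intro m hm
  rw [key, coeff_eq_zero_of_natDegree_lt hm, mul_zero]

theorem coeff_prod_le {ι : Type*} (t : Finset ι) (f : ι → k[X]) (d : ι → ℕ)
    (h : ∀ i ∈ t, (f i).natDegree ≤ d i) :
    (∏ i ∈ t, f i).natDegree ≤ ∑ i ∈ t, d i ∧
      (∏ i ∈ t, f i).coeff (∑ i ∈ t, d i) = ∏ i ∈ t, (f i).coeff (d i) := by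
  classical
  induction t using Finset.induction_on with
  | empty => simp
  | insert a t ha ih =>
    obtain ⟨h1, h2⟩ := ih (fun i hi => h i (mem_insert_of_mem hi))
    have h3 := h a (mem_insert_self _ _)
    rw [prod_insert ha, sum_insert ha, prod_insert ha]
    exact ⟨natDegree_mul_le.trans (add_le_add h3 h1), by
      rw [coeff_mul_add_eq_of_natDegree_le h3 h1, h2]⟩

/-- degree of the Wronskian -/
theorem natDegree_W (y : Fin n → k[X]) (hW : W y ≠ 0)
    (hinj : Function.Injective fun j => ((y j).natDegree : k)) :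
    ∑ j, (y j).natDegree ≤ (W y).natDegree + ∑ i : Fin n, (i : ℕ) := by
  have hy := ne_zero_of_W y hW
  have h3 := det_rows X y
  have h4 : ((X : k[X]) ^ (∑ i : Fin n, (i : ℕ)) * W y).coeff (∑ j, (y j).natDegree) ≠ 0 := by
    rw [← h3, Matrix.det_apply, finsetSum_coeff]
    have h5 := det_desc (fun j => ((y j).natDegree : k)) hinj (fun j => (y j).leadingCoeff)
      (fun j => leadingCoeff_ne_zero.mpr (hy j))
    rw [Matrix.det_apply] at h5
    convert h5 using 2 with σ _
    simp only [Matrix.of_apply]
    rw [coeff_smul, (coeff_prod_le univ _ (fun j => (y j).natDegree)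
      (fun j _ => (euler_inf (y j) _).1)).2]
    congr 1
    exact prod_congr rfl fun j _ => (euler_inf (y j) _).2
  have h5 := le_natDegree_of_ne_zero h4
  rw [natDegree_X_pow_mul _ hW] at h5
  exact h5

/-- the differential operator -/
noncomputable def Lop (b : Fin (n + 1) → k[X]) (y : k[X]) : k[X] :=
  ∑ i : Fin (n + 1), b i * derivative^[(i : ℕ)] y

theorem Lop_const_mul (b : Fin (n + 1) → k[X]) (c y : k[X]) (hc : derivative c = 0) :
    Lop b (c * y) = c * Lop b y := by
  unfold Lop
  rw [mul_sum]
  refine sum_congr rfl fun i _ => ?_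
  rw [iter_const_mul _ _ hc]; ring

theorem Lop_sub (b : Fin (n + 1) → k[X]) (y z : k[X]) : Lop b (y - z) = Lop b y - Lop b z := by
  unfold Lop
  rw [← sum_sub_distrib]
  refine sum_congr rfl fun i _ => ?_
  rw [iterate_derivative_sub]; ring

theorem indicial_local (b : Fin (n + 1) → k[X]) (s : k) (μ : ℕ) (h : Fin (n + 1) → k[X])
    (hb : ∀ i, b i * (X - C s) ^ (n - i) = (X - C s) ^ μ * h i) (y : k[X]) (hy : y ≠ 0)
    (hL : Lop b y = 0) :
    ∑ i : Fin (n + 1), (h i).eval s * (descPochhammer k i).eval (rootMultiplicity s y : k) = 0 := by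
  obtain ⟨u, h1, h2⟩ := exists_eq_pow_rootMultiplicity_mul_and_not_dvd y hy s
  have h2' : u.eval s ≠ 0 := fun h => h2 (dvd_iff_isRoot.mpr h)
  choose g hg1 hg2 using fun i : Fin (n + 1) => euler_local s (rootMultiplicity s y) u i
  have h3 : (X - C s) ^ n * Lop b y =
      (X - C s) ^ (μ + rootMultiplicity s y) * ∑ i, h i * g i := by
    unfold Lop
    rw [mul_sum, mul_sum]
    refine sum_congr rfl fun i _ => ?_
    have e : (X - C s) ^ n = (X - C s) ^ (n - i) * (X - C s) ^ (i : ℕ) := by
      rw [← pow_add, Nat.sub_add_cancel (Nat.lt_succ_iff.mp i.2)]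
    have := hg1 i
    rw [← h1] at this
    calc (X - C s) ^ n * (b i * derivative^[(i : ℕ)] y)
        = (b i * (X - C s) ^ (n - i)) * ((X - C s) ^ (i : ℕ) * derivative^[(i : ℕ)] y) := by
          rw [e]; ring
      _ = _ := by rw [hb, this, pow_add]; ring
  rw [hL, mul_zero] at h3
  have h4 : ∑ i, h i * g i = 0 :=
    (mul_eq_zero.mp h3.symm).resolve_left (pow_ne_zero _ (X_sub_C_ne_zero s))
  have h5 := congrArg (eval s) h4
  simp only [eval_finsetSum, eval_mul, hg2, eval_zero] at h5
  have h6 : (∑ i : Fin (n + 1), (h i).eval s *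
      (descPochhammer k i).eval (rootMultiplicity s y : k)) * u.eval s = 0 := by
    rw [sum_mul, ← h5]
    exact sum_congr rfl fun i _ => by ring
  exact (mul_eq_zero.mp h6).resolve_right h2'

theorem indicial_inf (b : Fin (n + 1) → k[X]) (ν : ℕ)
    (hb : ∀ i, (b i * X ^ (n - i)).natDegree ≤ ν) (y : k[X]) (hy : y ≠ 0) (hL : Lop b y = 0) :
    ∑ i : Fin (n + 1), (b i * X ^ (n - i)).coeff ν *
      (descPochhammer k i).eval (y.natDegree : k) = 0 := by
  have h3 : X ^ n * Lop b y =
      ∑ i : Fin (n + 1), (b i * X ^ (n - i)) * (X ^ (i : ℕ) * derivative^[(i : ℕ)] y) := by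
    unfold Lop
    rw [mul_sum]
    refine sum_congr rfl fun i _ => ?_
    have e : (X : k[X]) ^ n = X ^ (n - i) * X ^ (i : ℕ) := by
      rw [← pow_add, Nat.sub_add_cancel (Nat.lt_succ_iff.mp i.2)]
    rw [e]; ring
  rw [hL, mul_zero] at h3
  have h5 := congrArg (fun q => coeff q (ν + y.natDegree)) h3
  simp only [coeff_zero, finsetSum_coeff] at h5
  have h6 : (∑ i : Fin (n + 1), (b i * X ^ (n - i)).coeff ν *
      (descPochhammer k i).eval (y.natDegree : k)) * y.leadingCoeff = 0 := by
    rw [sum_mul, h5]
    refine sum_congr rfl fun i _ => ?_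
    rw [coeff_mul_add_eq_of_natDegree_le (hb i) (euler_inf y i).1, (euler_inf y i).2]; ring
  exact (mul_eq_zero.mp h6).resolve_right (leadingCoeff_ne_zero.mpr hy)

end Pool.Agent.H112Z.PCurv
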